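import Pool.Agent.Run7.h245.NF.Fin

/-!
# The 2-primary parts of the Tate-Shafarevich groups over every number field and all its 2-extensions

Let `F` be ANY number field. The family is the one of `MP_7cad78_nt`: all pairs `(A, B)` of integers of `F` with
`4 A³ + 27 B² ≠ 0` such that no nonzero prime ideal `𝔭` has `𝔭⁴ ∣ A` and `𝔭⁶ ∣ B`, ordered by the height
`max_σ max (4 |σ A|³, 27 |σ B|²)`. Let `K₀` be any finite extension of `F` which has an embedding over `F` in
`F_w` for all `w ∣ 2` and in `ℝ` over each real embedding of `F`.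

Theorem. A positive proportion of ALL elliptic curves `E : y ^ 2 = x ^ 3 + A x + B` over `F` has the following
property: `K₀` is allowed for `E`, and for EVERY finite Galois extension `K / F` of 2-power degree which is
allowed for `E` the 2-Selmer group of `E` over `K` is trivial, `Ш(E / K)[2 ^ ∞] = 0`, and `E(K)` is finite of odd
order. Here `K` is allowed for `E` if
* each finite place `w` of `F` splits completely in `K`, or `w ∤ 2`, `w` is unramified in `K` and
  `4 A³ + 27 B²` is not divisible by `w²`, or `w ∤ 2` and `x³ + A x + B` has no zero in `F_w` (then `w` may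
  have any ramification in `K`);
* each real place of `F` is real in `K`, or `x³ + A x + B` has only one real zero there.
There is no bound on the degree of `K`, the Galois group or the number of ramified primes, and the constant
depends only on `F` and `K₀`. The conditions are stable under composita, so for each of these curves the
fields `K` form one infinite pro-2 extension of `F` (containing `K₀` if `K₀ / F` is Galois of 2-power degree).

The case `K = F` is `MP_7cad78_nt.RankZeroEveryNumberField` (project PF, helper783, whose theorems on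
lattices, reduction theory, reciprocity and linear algebra over `F` are used here). For `F = ℚ` see
`MP_78d38b_nt.UniformTwoExtensions` (helper23) and `MP_775b3b_nt.PositiveProportionUnramified`; over a general
`F` no result for an extension `K ≠ F` was there.

The proof. For `f` in the family of project PF (integral, squarefree discriminant `4 a³ + 27 b²`, prescribed at the
small primes and at the primes over a finite set `S` of rational primes) which is not bad there is a subset `J` of
`S` such that a group of classes `α` of `L = F(θ)` is trivial, for the twist of `f` by the product `D` of `J`; this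
group does not depend on `K`. Let `Ω = K(θ)`. The elements of `Ω` which satisfy the local conditions of the
2-Selmer group over `K` form a group stable under `Gal(K / F)`; as this is a 2-group and `Ω / L` is Galois
with the same group, it is enough to show that an element `α` of `L` in it is a square:
* at an unramified place `w` the valuations of `α` are even because the primes of `Ω` over it are unramified over
  `L` (`f'(θ)` a unit) and the remaining prime of `L` is unique of degree one, and the norm is a square;
* at the places with no zero of the cubic polynomial there is only one prime of `L`, and the norm is a square;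
* at a split place the local condition over `K_v = F_w` gives the one over `F_w`; an embedding of `K` in `F_w`
  extends to a completion of `K` (`Emb`);
* at a real place with one real zero the condition is empty.
The small primes which are ramified in `K₀` are taken care of by polynomials which are irreducible modulo all
prime ideals over small primes (in characteristic three these are of Artin-Schreier type), and the primes in `S` are
chosen completely split in the normal closure of `K₀` over `ℚ`. The lemmas are in `Pool/Agent/Run7/h245/NF`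
(helper245). `Pt`, `Sep`, `act`, `rs`, `IsCoc`, `LocTriv`, `Comp` are the group of points, separable closures,
the action of the Galois group, continuous cocycles and their restriction to completions of `Pool.Agent.TH115.GD`.
-/

set_option autoImplicit false
set_option linter.all false

namespace Pool.Agent.Results.MP_78d38b_nt.EveryNumberField

open Filter NumberField IsDedekindDomain Pool.Agent.TH115.GD
open scoped Classical

section family

variable (F : Type) [Field F] [NumberField F]

/-- The pairs of integers `(A, B)` of `F` with `4 A ^ 3 + 27 B ^ 2 ≠ 0` for which no nonzero prime ideal `𝔭`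
satisfies both `𝔭 ^ 4 ∣ A` and `𝔭 ^ 6 ∣ B`. -/
def Family : Set (𝓞 F × 𝓞 F) :=
  {p | 4 * p.1 ^ 3 + 27 * p.2 ^ 2 ≠ 0 ∧
    ∀ 𝔭 : Ideal (𝓞 F), 𝔭.IsPrime → 𝔭 ≠ ⊥ → ¬ (p.1 ∈ 𝔭 ^ 4 ∧ p.2 ∈ 𝔭 ^ 6)}

variable {F}

/-- The height `max_σ max (4 |σ A|³, 27 |σ B|²)`, over the embeddings `σ : F → ℂ`. -/
noncomputable def height (p : 𝓞 F × 𝓞 F) : ℝ :=
  ⨆ σ : F →+* ℂ, max (4 * ‖σ (p.1 : F)‖ ^ 3) (27 * ‖σ (p.2 : F)‖ ^ 2)

variable (F)

/-- The members of the family of height at most `X`. -/
def UpTo (X : ℝ) : Set (𝓞 F × 𝓞 F) := {p ∈ Family F | height p ≤ X}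

end family

section sha

variable (K : Type) [Field K] [NumberField K] (W : WeierstrassCurve K)

/-- The cocycle `f` of `Gal(Sep K / K)` is a coboundary over all completions of `K`: at every maximal ideal
of the ring of integers and over `ℝ` for every real embedding (over `ℂ` there is no condition). -/
structure Locally (f : (Sep K ≃ₐ[K] Sep K) → Pt W (Sep K)) : Prop where
  finite : ∀ v : HeightOneSpectrum (𝓞 K), LocTriv W (Comp (𝓞 K) K v) (Sep (Comp (𝓞 K) K v)) f
  real : ∀ ρ : K →+* ℝ, letI := ρ.toAlgebra; LocTriv W ℝ (Sep ℝ) f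

/-- The 2-Selmer group is zero: every continuous cocycle with values in the points of order two which is
a coboundary (with values in all points) over all completions is the coboundary of a point of order two. -/
def SelTwoZero : Prop :=
  ∀ f : (Sep K ≃ₐ[K] Sep K) → Pt W (Sep K), IsCoc W f → (∀ σ, (2 : ℕ) • f σ = 0) →
    Locally K W f → ∃ T : Pt W (Sep K), (2 : ℕ) • T = 0 ∧ ∀ σ, f σ = act W (rs K σ) T - T

/-- The 2-primary part of the Tate-Shafarevich group is zero: every continuous cocycle whose class
is killed by a power of two and which is a coboundary over all completions is a coboundary. -/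
def ShaTwoZero : Prop :=
  ∀ f : (Sep K ≃ₐ[K] Sep K) → Pt W (Sep K), IsCoc W f → Locally K W f →
    (∃ (n : ℕ) (Q : Pt W (Sep K)), ∀ σ, 2 ^ n • f σ = act W (rs K σ) Q - Q) →
    ∃ Q : Pt W (Sep K), ∀ σ, f σ = act W (rs K σ) Q - Q

end sha

section allowed

variable {F : Type} [Field F] [NumberField F] (K : Type) [Field K] [NumberField K] [Algebra F K]

/-- The curve `y ^ 2 = x ^ 3 + A x + B` over the extension `K` of `F`. -/
noncomputable def curve (p : 𝓞 F × 𝓞 F) : WeierstrassCurve K :=
  ⟨0, 0, 0, algebraMap F K (p.1 : F), algebraMap F K (p.2 : F)⟩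

/-- Trivial 2-Selmer group, trivial 2-primary part of the Tate-Shafarevich group, and a finite group of
points of odd order, over `K`. -/
structure Good (p : 𝓞 F × 𝓞 F) : Prop where
  sel : SelTwoZero K (curve K p)
  sha : ShaTwoZero K (curve K p)
  fin : Finite (curve K p).toAffine.Point
  odd : Odd (Nat.card (curve K p).toAffine.Point)

/-- The extension `K / F` is unramified over the place `w` of `F`: `w` is not contained in the square of
a prime ideal of `K` over `w`. -/
def UnramifiedOver (w : HeightOneSpectrum (𝓞 F)) : Prop :=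
  ∀ v : HeightOneSpectrum (𝓞 K), (∀ a ∈ w.asIdeal, algebraMap (𝓞 F) (𝓞 K) a ∈ v.asIdeal) →
    ¬ w.asIdeal.map (algebraMap (𝓞 F) (𝓞 K)) ≤ v.asIdeal ^ 2

/-- The polynomial `x ^ 3 + A x + B` has a zero in the completion of `F` at `w`. -/
def HasZero (w : HeightOneSpectrum (𝓞 F)) (p : 𝓞 F × 𝓞 F) : Prop :=
  ∃ x : w.adicCompletion F, x ^ 3 + algebraMap F (w.adicCompletion F) (p.1 : F) * x +
    algebraMap F (w.adicCompletion F) (p.2 : F) = 0

/-- The extension `K / F` is allowed for the curve `p`. -/
structure Allowed (p : 𝓞 F × 𝓞 F) : Prop where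
  finite : ∀ w : HeightOneSpectrum (𝓞 F), Nonempty (K →ₐ[F] w.adicCompletion F) ∨
    ((2 : 𝓞 F) ∉ w.asIdeal ∧
      ((UnramifiedOver K w ∧ 4 * p.1 ^ 3 + 27 * p.2 ^ 2 ∉ w.asIdeal ^ 2) ∨ ¬ HasZero w p))
  real : ∀ σ : F →+* ℝ, (∃ ρ : K →+* ℝ, ρ.comp (algebraMap F K) = σ) ∨
    0 < σ ((4 * p.1 ^ 3 + 27 * p.2 ^ 2 : 𝓞 F) : F)

end allowed

/-- The property of the curve `p` over `F` in the theorem: `Good` over all allowed Galois extensions of `F` of
2-power degree. -/
def Uniform {F : Type} [Field F] [NumberField F] (p : 𝓞 F × 𝓞 F) : Prop :=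
  ∀ (K : Type) [Field K] [NumberField K] [Algebra F K] [IsGalois F K] (n : ℕ),
    Module.finrank F K = 2 ^ n → Allowed K p → Good K p

theorem crv_iff {F : Type} [Field F] [NumberField F] (X : ℝ) (p : 𝓞 F × 𝓞 F) :
    Pool.Agent.N783.PF.Crv X p ↔ p ∈ UpTo F X := by
  have hb : BddAbove (Set.range fun σ : F →+* ℂ =>
      max (4 * ‖σ (p.1 : F)‖ ^ 3) (27 * ‖σ (p.2 : F)‖ ^ 2)) := Set.Finite.bddAbove (Set.finite_range _)
  constructor
  · rintro ⟨h1, h2, h3⟩
    refine ⟨⟨h1, h2⟩, ciSup_le fun σ => max_le (h3 σ).1 (h3 σ).2⟩
  · rintro ⟨⟨h1, h2⟩, h3⟩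
    refine ⟨h1, h2, fun σ => ?_⟩
    have h4 := (le_ciSup hb σ).trans h3
    exact ⟨(le_max_left _ _).trans h4, (le_max_right _ _).trans h4⟩

theorem allowed_iff {F : Type} [Field F] [NumberField F] (K : Type) [Field K] [NumberField K]
    [Algebra F K] (p : 𝓞 F × 𝓞 F) : Allowed K p ↔ Pool.Agent.Run7.h245.NF.Alw K p.1 p.2 := by
  constructor
  · rintro ⟨h1, h2⟩
    refine ⟨fun w => ?_, h2⟩
    rcases h1 w with h | ⟨h, h' | h'⟩
    · exact Or.inl h
    · exact Or.inr ⟨h, Or.inl h'⟩
    · exact Or.inr ⟨h, Or.inr fun x hx => h' ⟨x, hx⟩⟩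
  · rintro ⟨h1, h2⟩
    refine ⟨fun w => ?_, h2⟩
    rcases h1 w with h | ⟨h, h' | h'⟩
    · exact Or.inl h
    · exact Or.inr ⟨h, Or.inl h'⟩
    · exact Or.inr ⟨h, Or.inr fun ⟨x, hx⟩ => h' x hx⟩

/-- **All allowed 2-extensions at once, over every number field.** Let `F` be a number field and `K₀` a finite
extension of `F` which has an `F`-embedding in the completion of `F` at every place above `2` and a real
embedding over each real embedding of `F`. Then a positive proportion of all elliptic curves over `F` is
`Uniform` and has `K₀` allowed. -/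
theorem result (F : Type) [Field F] [NumberField F] (K₀ : Type) [Field K₀] [NumberField K₀]
    [Algebra F K₀]
    (h2 : ∀ w : HeightOneSpectrum (𝓞 F), (2 : 𝓞 F) ∈ w.asIdeal →
      Nonempty (K₀ →ₐ[F] w.adicCompletion F))
    (hR : ∀ σ : F →+* ℝ, ∃ ρ : K₀ →+* ℝ, ρ.comp (algebraMap F K₀) = σ) :
    (∀ X : ℝ, (UpTo F X).Finite) ∧
    ∃ c : ℝ, 0 < c ∧ ∀ᶠ X : ℝ in atTop,
      0 < (UpTo F X).ncard ∧
      c * ((UpTo F X).ncard : ℝ) ≤
        ({p ∈ UpTo F X | Allowed K₀ p ∧ Uniform p}.ncard : ℝ) := by
  have hset : ∀ X : ℝ, UpTo F X = {p : 𝓞 F × 𝓞 F | Pool.Agent.N783.PF.Crv X p} := by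
    intro X
    ext p
    exact (crv_iff X p).symm
  obtain ⟨c, hc, Y₀, h⟩ := Pool.Agent.Run7.h245.NF.finNF F K₀ h2 hR
  have hfin : ∀ X : ℝ, (UpTo F X).Finite := fun X => by
    rw [hset]
    exact (h X).1
  refine ⟨hfin, c, hc, ?_⟩
  filter_upwards [eventually_ge_atTop Y₀] with X hX
  obtain ⟨h1, h3⟩ := (h X).2 hX
  rw [← hset] at h1 h3
  refine ⟨h1, h3.trans ?_⟩
  have h4 : {p : 𝓞 F × 𝓞 F | Pool.Agent.N783.PF.Crv X p ∧
      Pool.Agent.Run7.h245.NF.GoodAll K₀ p} ⊆ {p ∈ UpTo F X | Allowed K₀ p ∧ Uniform p} := by
    rintro p ⟨hp, hA, hg⟩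
    refine ⟨(crv_iff X p).1 hp, (allowed_iff K₀ p).2 hA, ?_⟩
    intro K _ _ _ _ n hn hK
    obtain ⟨g1, g2, g3, g4⟩ := hg K n hn ((allowed_iff K p).1 hK)
    exact ⟨fun f hf h2f hl => g1 f hf h2f ⟨hl.finite, hl.real⟩,
      fun f hf hl hn => g2 f hf ⟨hl.finite, hl.real⟩ hn, g3, g4⟩
  exact_mod_cast Set.ncard_le_ncard h4 ((hfin X).subset fun p hp => hp.1)

end Pool.Agent.Results.MP_78d38b_nt.EveryNumberField
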