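import Pool.Agent.Run7.h26.QI.Cr
import Pool.Agent.Run7.h26.QI.Ct9
import Pool.Agent.Run7.h843.QJ.PAR2
import Pool.Agent.Run7.h843.QJ.CvM
import Pool.Agent.Run7.h843.QJ.Ex
import Pool.Agent.Run7.h691.QM.Pt

/-!
# The exact laws of the 2-primary part of Sha for the quadratic twists of `y² = x³ - x` over `ℚ(i)`,
# and their independence

`K` is a number field with an isomorphism `e` of the ring `ℤ[i]` of Gaussian integers with its ring
of integers (so `K = ℚ(i)`), and `E_g : y² = x³ - g² x` the quadratic twist of `y² = x³ - x` by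
the Gaussian integer `g`. Up to sign (`E_g = E_{-g}`) the squarefree `g` are the quadratic twists. Every
squarefree `g` is `u D` or `(1 + i) u D` with `D` squarefree, `D ≡ 1 mod 2 + 2i` and a unit `u`.

* For EVERY squarefree `g` whose imaginary part is not divisible by `4` (five sixths of all squarefree `g`):
  `E_g(K)` is finite and `Ш(E_g/K)[2^∞] = 0` IF AND ONLY IF `g` satisfies an explicit criterion on the quadratic
  symbols between the prime factors of `D` (and of these primes with `i` and `1 + i`); and then `E_g(K)`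
  has exactly four elements, and `L(E_g/K, s)` is entire and not zero at `1` (hence the whole group `Ш(E_g/K)` is
  finite, of odd order, by the theorem of Rubin; this last step is not part of the formal statement).
* So exactly the proportion `κ = ∏_{i ≥ 0} (1 - 2^{-(2i+1)}) = 0.4194...` of these `g`, ordered by norm, has finite
  `E_g(K)` and `Ш(E_g/K)[2^∞] = 0`. For at least 34.95 percent of ALL squarefree `g` all this holds, and for at
  least 48.37 percent of ALL squarefree `g` the group `E_g(K)` is infinite or `Ш(E_g/K)` has elements of order two.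

* Independence. Let `a_1, …, a_m` be any nonzero Gaussian integers which are pairwise different modulo squares. Every
  nonzero `x` is, up to a square, uniquely `c D` (the normal form) with `c = 1, i, 1 + i, i (1 + i)` and `D` as above. In the
  class of the squarefree `g` such that no `g a_i` has a normal form with `c = 1` (it is described by conditions on
  `c` only, there are no congruence conditions on `D`), for every `V ⊆ {1, …, m}` exactly the proportion `κ^#V (1 - κ)^(m - #V)` has
  finite `E_{g a_i}(K)` and `Ш(E_{g a_i}/K)[2^∞] = 0` for the `i` in `V` and for no other `i`. So for the abelian varieties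
  `A_g = ∏ (E_{g a_i})^(k_i)` of any dimension over `ℚ(i)`, exactly for the proportion `κ^m` of the class `A_g(K)` is finite and
  `Ш(A_g/K)[2^∞] = 0` (and the `L`-functions of all the factors are not zero at `1`).

The proof of sufficiency: the locally trivial cocycles with values in the points killed by two are
bounded by the classes `b` in `K^* / K^*²` which satisfy the local conditions of the isogeny `1 + i` of degree
two (`Pool/Agent/Y682`, over any number field); the local conditions at the odd places are in `Run7/h843/QJ/Loc.lean`,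
the ones at the place `1 + i`, where the reduction is additive, in `Run7/h843/QJ/Two.lean`,
`One.lean`, `PAR2.lean`; the criterion then leaves the two classes `1` and `g` (`SEL.lean`, `One.lean`), and
`SHA.lean` concludes. The `L`-function, the points and the count: `Run7/h26/QI` (helper26), `Y699` (helper699),
`Run7/h691/GZ` (helper691), see `MP_cd906c_nt.GaussianTwistsFiveSixths`.

The proof of necessity (`Run7/h843/QJ/Cnt.lean`, `CvS`, `CvL`, `CvG`, `CvM`): if the criterion fails, there is a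
divisor `d` for which the cocycle of the pair `(1, d)` with values in the points of order two is locally
trivial everywhere: at the good places by the surjectivity of the Kummer map over finite fields (helper374),
at the bad odd places by the failure of the criterion, and at `1 + i` the class of `d` is determined by the product
formula for the quadratic symbols, which makes the local condition true automatically. If `Ш` had no
element of order two, the class would come from a point of `E_g(K)` (general 2-descent: helper135, helper374,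
helper376, helper289), and if `E_g(K)` is finite, a counting argument with the endomorphism `1 + i` shows that
`d` or `g d` is a square, which is false.

The independence is the law of patterns of helper691 (`Run7/h691/QM`): the large sieve for the quadratic symbols of `ℤ[i]` with
the masks of the fixed primes and of `i`, `1 + i`; compare `MP_9ab903_nt.TwoPartIndependence`.
-/

set_option autoImplicit false

namespace Pool.Agent.Results.MP_78d38b_nt.GaussianTwistsShaIndependence

open NumberField IsDedekindDomain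

/-- `W v` is, for every finite place `v`, an integral model of `E` with discriminant minimal at
`v`. -/
def MinimalModels {K : Type} [Field K] [NumberField K] (E : WeierstrassCurve K)
    (W : HeightOneSpectrum (𝓞 K) → WeierstrassCurve (𝓞 K)) : Prop :=
  ∀ v : HeightOneSpectrum (𝓞 K),
    (∃ C : WeierstrassCurve.VariableChange K, C • (W v).map (algebraMap (𝓞 K) K) = E) ∧
    ∀ W' : WeierstrassCurve (𝓞 K),
      (∃ C : WeierstrassCurve.VariableChange K, C • W'.map (algebraMap (𝓞 K) K) = E) →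
      ∀ n : ℕ, (W v).Δ ∈ v.asIdeal ^ n → W'.Δ ∈ v.asIdeal ^ n

open Classical in
/-- The Euler factor at `v`, `(1 - a_v Nv^{-s} + Nv^{1-2s})⁻¹` if the reduction at `v` is good and
`(1 - a_v Nv^{-s})⁻¹` if it is bad, where `a_v` is `Nv` minus the number of affine points of the
reduction of `W v`. -/
noncomputable def localFactor {K : Type} [Field K] [NumberField K]
    (W : HeightOneSpectrum (𝓞 K) → WeierstrassCurve (𝓞 K)) (v : HeightOneSpectrum (𝓞 K))
    (s : ℂ) : ℂ :=
  (1 - ((Ideal.absNorm v.asIdeal : ℂ)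
        - (Nat.card {xy : (𝓞 K ⧸ v.asIdeal) × (𝓞 K ⧸ v.asIdeal) //
            ((W v).map (Ideal.Quotient.mk v.asIdeal)).toAffine.Equation xy.1 xy.2} : ℂ))
        * (Ideal.absNorm v.asIdeal : ℂ) ^ (-s)
    + (if (W v).Δ ∈ v.asIdeal then 0 else (Ideal.absNorm v.asIdeal : ℂ))
        * (Ideal.absNorm v.asIdeal : ℂ) ^ (-2 * s))⁻¹

/-- The `L`-function of `E` is entire and not zero at `1`: `E` has minimal models, and its
`L`-series, the product of the Euler factors for `Re s > 3/2`, extends to an entire function `L` with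
`L(1) ≠ 0`. -/
def NonzeroL {K : Type} [Field K] [NumberField K] (E : WeierstrassCurve K) : Prop :=
  (∃ W : HeightOneSpectrum (𝓞 K) → WeierstrassCurve (𝓞 K), MinimalModels E W) ∧
  (∃ L : ℂ → ℂ, Differentiable ℂ L ∧
    (∀ W : HeightOneSpectrum (𝓞 K) → WeierstrassCurve (𝓞 K), MinimalModels E W →
      ∀ s : ℂ, 3 / 2 < s.re → HasProd (fun v => localFactor W v s) (L s)) ∧
    L 1 ≠ 0)

/-- `Ш(E/K)[2^∞] = 0`. Here `Ш(E/K)` is the group of the classes, modulo coboundaries, of the continuous
cocycles of the absolute Galois group of `K` with values in the points of `E` over an algebraic closure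
which are coboundaries over the completions of `K` at all places. -/
def ShaTwoZero {K : Type} [Field K] [NumberField K] (E : WeierstrassCurve K) : Prop :=
  ∀ (n : ℕ) (x : Pool.Agent.TH841.NF.D.Sha E), 2 ^ n • x = 0 → x = 0

/-- The curve `y² = x³ - g² x`. -/
noncomputable def twist {K : Type} [Field K] [NumberField K] (e : GaussianInt ≃+* 𝓞 K)
    (g : GaussianInt) : WeierstrassCurve K :=
  ⟨0, 0, 0, -(algebraMap (𝓞 K) K (e g)) ^ 2, 0⟩

/-- For `K = ℚ(i)` (every number field `K` with an isomorphism `e` of `ℤ[i]` with its ring of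
integers) and `E : y² = x³ - g² x`: `Ш(E/K)[2^∞] = 0`, `E(K)` has exactly four elements, and the `L`-function
of `E` over `K` is entire and not zero at `1`. -/
def Trivial (g : GaussianInt) : Prop :=
  ∀ (K : Type) [Field K] [NumberField K] [DecidableEq K] (e : GaussianInt ≃+* 𝓞 K),
    ShaTwoZero (twist e g) ∧ Nat.card (twist e g).toAffine.Point = 4 ∧ NonzeroL (twist e g)

/-- `D ≡ 1 mod 2 + 2i`. -/
def Primary (D : GaussianInt) : Prop := (⟨2, 2⟩ : GaussianInt) ∣ D - 1

/-- `D ≡ 1 mod 2 + 2i` is squarefree. -/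
def SquarefreePrimary (D : GaussianInt) : Prop := Primary D ∧ Squarefree D

/-- `a` is a square modulo each prime factor of `d`. -/
def SquareMod (d a : GaussianInt) : Prop :=
  ∀ π : GaussianInt, Prime π → π ∣ d → ∃ b, π ∣ a - b ^ 2

/-- The criterion for `g = c D`: the only factorisation `D = d d'` with `d`, `d'` primary, `c d'` a square
modulo each prime factor of `d` and `d` a square modulo each prime factor of `d'` is the one with
`d = 1`. -/
def Criterion (c D : GaussianInt) : Prop :=
  ∀ d d' : GaussianInt, Primary d → Primary d' → D = d * d' →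
    SquareMod d (c * d') → SquareMod d' d → d = 1

/-- The criterion for `g = D`: the only factorisations `D = d d'` with `d`, `d'` primary, `d'` a square
modulo each prime factor of `d` and `d` a square modulo each prime factor of `d'` are the ones with
`d = 1` or `d' = 1`. -/
def CriterionOne (D : GaussianInt) : Prop :=
  ∀ d d' : GaussianInt, Primary d → Primary d' → D = d * d' →
    SquareMod d d' → SquareMod d' d → d = 1 ∨ d' = 1

/-- `c` is `i`, `1 + i` or `i (1 + i)`. -/
def IsTwistor (c : GaussianInt) : Prop := c = ⟨0, 1⟩ ∨ c = ⟨1, 1⟩ ∨ c = ⟨0, 1⟩ * ⟨1, 1⟩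

/-- The explicit set of `g`: `g = ± D` with `D` squarefree and primary, `N(D) ≡ 5 mod 8` and the
criterion for `D`; or `g = ± c D` with `c` one of `i`, `1 + i`, `i (1 + i)`, `D` squarefree and
primary, and the criterion for `c D`. -/
def Good (g : GaussianInt) : Prop :=
  (∃ D, (g = D ∨ g = -D) ∧ SquarefreePrimary D ∧ D.norm % 8 = 5 ∧ CriterionOne D) ∨
  ∃ c D, IsTwistor c ∧ (g = c * D ∨ g = -(c * D)) ∧ SquarefreePrimary D ∧ Criterion c D

/-- The number of the Gaussian integers of norm at most `X` with the property `P`. -/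
noncomputable def num (P : GaussianInt → Prop) (X : ℕ) : ℕ := {D : GaussianInt | D.norm ≤ X ∧ P D}.ncard

/-- The infinite product `(1 - 1/2) (1 - 1/8) (1 - 1/32) ⋯`. -/
noncomputable def κ : ℝ := ∏' i : ℕ, (1 - (1 / 2 : ℝ) ^ (2 * i + 1))

/-- For `K = ℚ(i)`: `E(K)` is finite and `Ш(E/K)[2^∞] = 0`. -/
def FiniteTwoZero (g : GaussianInt) : Prop :=
  ∀ (K : Type) [Field K] [NumberField K] (e : GaussianInt ≃+* 𝓞 K),
    Finite (twist e g).toAffine.Point ∧ ShaTwoZero (twist e g)

/-- For `K = ℚ(i)`: `E(K)` is infinite or `Ш(E/K)` has an element of order two. -/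
def InfiniteOrTwo (g : GaussianInt) : Prop :=
  ∀ (K : Type) [Field K] [NumberField K] (e : GaussianInt ≃+* 𝓞 K),
    Infinite (twist e g).toAffine.Point ∨ ∃ x : Pool.Agent.TH841.NF.D.Sha (twist e g), 2 • x = 0 ∧ x ≠ 0

/-- `g` is squarefree and its imaginary part is not divisible by `4` -/
def Covered (g : GaussianInt) : Prop := Squarefree g ∧ ¬ (4 : ℤ) ∣ g.im

/-- `c D` is the normal form of `x` modulo squares: `c` is `1`, `i`, `1 + i` or `i (1 + i)`, `D` is
squarefree and primary, and `x c D` is a square. -/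
def NormalForm (x c D : GaussianInt) : Prop :=
  (c = 1 ∨ IsTwistor c) ∧ SquarefreePrimary D ∧ IsSquare (x * (c * D))

/-- The `a i` are nonzero and pairwise different modulo squares. -/
def Distinct {m : ℕ} (a : Fin m → GaussianInt) : Prop :=
  (∀ i, a i ≠ 0) ∧ ∀ i j, i ≠ j → ¬ IsSquare (a i * a j)

/-- The class: `g` is squarefree and no `g a_i` has a normal form with first component `1`. -/
def InClass {m : ℕ} (a : Fin m → GaussianInt) (g : GaussianInt) : Prop :=
  Squarefree g ∧ ∀ (i : Fin m) (D : GaussianInt), ¬ NormalForm (g * a i) 1 D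

/-- For `K = ℚ(i)` and the normal form `c D` of `x`: `E(K)` is finite and `Ш(E/K)[2^∞] = 0` for the curve
`E : y² = x³ - (c D)² x`. -/
def ZeroFor (x : GaussianInt) : Prop :=
  ∀ (K : Type) [Field K] [NumberField K] (e : GaussianInt ≃+* 𝓞 K) (c D : GaussianInt),
    NormalForm x c D → Finite (twist e (c * D)).toAffine.Point ∧ ShaTwoZero (twist e (c * D))

theorem norm_iff (D : GaussianInt) (X : ℕ) : D.norm ≤ X ↔ H385.nrm D ≤ X := by
  have h0 : ((H385.nrm D : ℕ) : ℤ) = D.norm := GaussianInt.abs_natCast_norm D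
  omega

theorem num_eq (P : GaussianInt → Prop) (X : ℕ) : num P X = Run7.h26.QI.nQ P X := by
  unfold num Run7.h26.QI.nQ
  congr 1
  ext D
  exact and_congr_left fun _ => norm_iff D X

theorem num_congr {P Q : GaussianInt → Prop} (h : ∀ g, P g ↔ Q g) (X : ℕ) : num P X = num Q X := by
  unfold num
  congr 1
  ext g
  exact and_congr_right fun _ => h g

theorem num_mono {P Q : GaussianInt → Prop} (h : ∀ g, P g → Q g) (X : ℕ) : num P X ≤ num Q X := by
  rw [num_eq, num_eq]
  exact Set.ncard_le_ncard (fun g hg => ⟨hg.1, h g hg.2⟩) (Run7.h26.QI.fin_Q Q X)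

theorem primary_iff (D : GaussianInt) : Primary D ↔ Pool.Agent.H304R2.EC.A1.prim D :=
  (Pool.Agent.W164.RC.prim_iff_dvd D).symm

theorem sp_iff (D : GaussianInt) : SquarefreePrimary D ↔ Pool.Agent.Y699.PS D :=
  ⟨fun h => ⟨(primary_iff D).1 h.1, h.2⟩, fun h => ⟨(primary_iff D).2 h.prm, h.sqf⟩⟩

theorem square_iff {d a : GaussianInt} (hd0 : d ≠ 0) (ho : d.norm % 2 = 1)
    (hnd : ∀ π : GaussianInt, Prime π → π ∣ d → ¬ π ∣ a) :
    SquareMod d a ↔ ∀ π ∈ Pool.Agent.Y699.PD d, Pool.Agent.Y699.qr π a = 1 := by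
  constructor
  · intro h π hπ
    rw [Pool.Agent.Y699.mem_PD hd0] at hπ
    have h1 := hnd π hπ.1.pr hπ.2
    have h2 := h π hπ.1.pr hπ.2
    unfold Pool.Agent.Y699.qr
    rw [if_neg h1, if_pos h2]
  · intro h π hπ hπd
    have hodd : π.norm % 2 = 1 := Pool.Agent.Y699.odd_of_dvd hπd ho
    obtain ⟨ρ, hρ, hass⟩ := Pool.Agent.Y699.exists_PP hπ hodd
    have hρd : ρ ∣ d := hass.dvd.trans hπd
    have h1 := h ρ ((Pool.Agent.Y699.mem_PD hd0).2 ⟨hρ, hρd⟩)
    unfold Pool.Agent.Y699.qr at h1
    rw [if_neg (hnd ρ hρ.pr hρd)] at h1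
    by_contra hc
    rw [if_neg (fun ⟨b, hb⟩ => hc ⟨b, hass.symm.dvd.trans hb⟩)] at h1
    exact absurd h1 (by norm_num)

theorem factor_data {D d d' : GaussianInt} (hD : Pool.Agent.Y699.PS D) (he : D = d * d') :
    d ≠ 0 ∧ d.norm % 2 = 1 ∧ ∀ π : GaussianInt, Prime π → π ∣ d → ¬ π ∣ d' := by
  have hd0 : d ≠ 0 := by
    rintro rfl
    exact hD.ne (by rw [he, zero_mul])
  have ho : D.norm % 2 = 1 := Pool.Agent.H304R2.EC.A1.prim_norm_odd hD.prm
  refine ⟨hd0, Pool.Agent.Y699.odd_of_dvd ⟨d', he⟩ ho, ?_⟩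
  intro π hπ h1 h2
  exact hπ.not_isUnit (hD.sqf π (by rw [he]; exact mul_dvd_mul h1 h2))

theorem twistor_iff (c : GaussianInt) : IsTwistor c ↔ Run7.h26.QI.cc3 c := Iff.rfl

theorem not_dvd_twistor {c π : GaussianInt} (hc : IsTwistor c) (hπ : Prime π) (ho : π.norm % 2 = 1) :
    ¬ π ∣ c := by
  obtain ⟨ρ, hρ, hass⟩ := Pool.Agent.Y699.exists_PP hπ ho
  intro h
  exact Run7.h26.QI.not_dvd_cc3 ((twistor_iff c).1 hc) hρ (hass.dvd.trans h)

theorem crit_iff {c D : GaussianInt} (hc : IsTwistor c) :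
    (SquarefreePrimary D ∧ Criterion c D) ↔ Run7.h26.QI.GoodC c D := by
  have main : ∀ d d' : GaussianInt, Pool.Agent.Y699.PS D → D = d * d' →
      ((SquareMod d (c * d') ↔ ∀ π ∈ Pool.Agent.Y699.PD d, Pool.Agent.Y699.qr π (c * d') = 1) ∧
      (SquareMod d' d ↔ ∀ π ∈ Pool.Agent.Y699.PD d', Pool.Agent.Y699.qr π d = 1)) := by
    intro d d' hD he
    obtain ⟨a1, a2, a3⟩ := factor_data hD he
    obtain ⟨b1, b2, b3⟩ := factor_data hD (by rw [he, mul_comm] : D = d' * d)
    refine ⟨square_iff a1 a2 ?_, square_iff b1 b2 b3⟩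
    intro π hπ h1 h2
    rcases hπ.dvd_or_dvd h2 with h3 | h3
    · exact not_dvd_twistor hc hπ (Pool.Agent.Y699.odd_of_dvd h1 a2) h3
    · exact a3 π hπ h1 h3
  constructor
  · rintro ⟨h1, h2⟩
    have hD := (sp_iff D).1 h1
    refine ⟨hD, fun d d' hd hd' he k1 k2 => ?_⟩
    obtain ⟨m1, m2⟩ := main d d' hD he
    exact h2 d d' ((primary_iff d).2 hd) ((primary_iff d').2 hd') he (m1.2 k1) (m2.2 k2)
  · intro h
    refine ⟨(sp_iff D).2 h.ps, fun d d' hd hd' he k1 k2 => ?_⟩
    obtain ⟨m1, m2⟩ := main d d' h.ps he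
    exact h.ker d d' ((primary_iff d).1 hd) ((primary_iff d').1 hd') he (m1.1 k1) (m2.1 k2)

theorem one_iff (D : GaussianInt) :
    (SquarefreePrimary D ∧ D.norm % 8 = 5 ∧ CriterionOne D) ↔ Pool.Agent.H691.GZ.GoodE {5, 13} D := by
  have h0 : ((H385.nrm D : ℕ) : ℤ) = D.norm := GaussianInt.abs_natCast_norm D
  have main : ∀ d d' : GaussianInt, Pool.Agent.Y699.PS D → D = d * d' →
      (SquareMod d d' ↔ ∀ π ∈ Pool.Agent.Y699.PD d, Pool.Agent.Y699.qr π d' = 1) := by
    intro d d' hD he
    obtain ⟨a1, a2, a3⟩ := factor_data hD he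
    exact square_iff a1 a2 a3
  constructor
  · rintro ⟨h1, h2, h3⟩
    have hD := (sp_iff D).1 h1
    refine ⟨⟨hD, ?_⟩, fun d d' hd hd' he k1 k2 => ?_⟩
    · rw [Finset.mem_insert, Finset.mem_singleton]
      rw [← h0] at h2
      omega
    · exact h3 d d' ((primary_iff d).2 hd) ((primary_iff d').2 hd') he ((main d d' hD he).2 k1)
        ((main d' d hD (by rw [he, mul_comm])).2 k2)
  · intro h
    have h2 := h.cl.2
    rw [Finset.mem_insert, Finset.mem_singleton] at h2
    refine ⟨(sp_iff D).2 h.cl.ps, by rw [← h0]; omega, fun d d' hd hd' he k1 k2 => ?_⟩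
    exact h.ker d d' ((primary_iff d).1 hd) ((primary_iff d').1 hd') he ((main d d' h.cl.ps he).1 k1)
      ((main d' d h.cl.ps (by rw [he, mul_comm])).1 k2)

theorem good_iff (g : GaussianInt) : Good g ↔ Run7.h26.QI.GoodG g := by
  unfold Good Run7.h26.QI.GoodG
  refine or_congr ?_ ?_
  · exact exists_congr fun D => and_congr_right fun _ => one_iff D
  · refine exists_congr fun c => exists_congr fun D => ?_
    rw [twistor_iff]
    exact and_congr_right fun hc => and_congr_right fun _ => crit_iff ((twistor_iff c).2 hc)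

theorem isT_twist {K : Type} [Field K] [NumberField K] (e : GaussianInt ≃+* 𝓞 K) {g : GaussianInt}
    (hg : g ≠ 0) : Pool.Agent.Y682.IsT (twist e g) 0 (-(Pool.Agent.Y715.Z.em0 e g) ^ 2) := by
  have h0 := Pool.Agent.Y715.Z.em0_ne e hg
  have h1 : (Pool.Agent.Y715.Z.em0 e g) ^ 2 ≠ 0 := pow_ne_zero 2 h0
  refine ⟨rfl, rfl, rfl, rfl, rfl, neg_ne_zero.2 h1, ?_⟩
  intro h
  have h4 : (4 : K) ≠ 0 := by norm_num
  apply mul_ne_zero h4 h1
  linear_combination h

/-- the class of norm `5` modulo `8` -/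
theorem trivial_one {D : GaussianInt} (h : Pool.Agent.H691.GZ.GoodE {5, 13} D) : Trivial D := by
  intro K _ _ _ e
  have hg : Pool.Agent.Y699.Good D := ⟨h.cl.ps, ((one_iff D).2 h).2.1, h.ker⟩
  have hc : Nat.card (twist e D).toAffine.Point = 4 := by
    have h0 : algebraMap (𝓞 K) K (e D) ≠ 0 := by
      rw [Ne, map_eq_zero_iff _ (IsFractionRing.injective (𝓞 K) K), map_eq_zero_iff _ e.injective]
      exact hg.ps.ne
    exact Pool.Agent.Y699.card_pts h0 two_ne_zero (fun x y h => Pool.Agent.Y699.crit_pts hg e h)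
  obtain ⟨L, hL1, hL2, hL3⟩ := Pool.Agent.Y699.crit_L hg e
  refine ⟨fun n x hx => Pool.Agent.Run7.h843.QJ.sha_pow2 e hg.ps.ne
      (Pool.Agent.Run7.h843.QJ.sel_one e hg) (isT_twist e hg.ps.ne) n x hx, hc,
    ⟨fun _ => Pool.Agent.Y699.crv (e D), fun v => Pool.Agent.Y699.crv_min e hg.ps v⟩,
    L, hL1, fun W hW s hs => hL3 W hW s hs, hL2⟩

/-- the three other classes -/
theorem trivial_twistor {c D : GaussianInt} (hc3 : Run7.h26.QI.cc3 c) (h : Run7.h26.QI.GoodC c D) :
    Trivial (c * D) := by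
  intro K _ _ _ e
  have hne : c * D ≠ 0 := mul_ne_zero (Run7.h26.QI.cc3_ne hc3) h.ps.ne
  have hc : Nat.card (twist e (c * D)).toAffine.Point = 4 := by
    have h0 : algebraMap (𝓞 K) K (e (c * D)) ≠ 0 := by
      rw [Ne, map_eq_zero_iff _ (IsFractionRing.injective (𝓞 K) K), map_eq_zero_iff _ e.injective]
      exact hne
    exact Pool.Agent.Y699.card_pts h0 two_ne_zero (fun x y k => Run7.h26.QI.crit_pts' hc3 h e k)
  obtain ⟨L, hL1, hL2, hL3⟩ := Run7.h26.QI.crit_L' hc3 h e
  refine ⟨fun n x hx => Pool.Agent.Run7.h843.QJ.sha_pow2 e hne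
      (Pool.Agent.Run7.h843.QJ.t_SEL' K e c D hc3 h) (isT_twist e hne) n x hx, hc,
    ⟨fun _ => Pool.Agent.Y699.crv (e (c * D)), fun v => Run7.h26.QI.crv_min' e hne
      (Run7.h26.QI.noup_cD hc3 h.ps) (Run7.h26.QI.sq_cD hc3 h.ps) v⟩,
    L, hL1, fun W hW s hs => hL3 W hW s hs, hL2⟩

theorem trivial_neg {g : GaussianInt} (h : Trivial g) : Trivial (-g) := by
  intro K _ _ _ e
  have h1 : twist e (-g) = twist e g := by
    unfold twist
    rw [map_neg, map_neg, neg_sq]
  rw [h1]
  exact h K e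

theorem trivial_good {g : GaussianInt} (h : Run7.h26.QI.GoodG g) : Trivial g := by
  rcases h with ⟨D, h1, h2⟩ | ⟨c, D, hc, h1, h2⟩
  · rcases h1 with h1 | h1 <;> rw [h1]
    · exact trivial_one h2
    · exact trivial_neg (trivial_one h2)
  · rcases h1 with h1 | h1 <;> rw [h1]
    · exact trivial_twistor hc h2
    · exact trivial_neg (trivial_twistor hc h2)

theorem covered_iff (g : GaussianInt) : Covered g ↔ Run7.h26.QI.Cov g := Iff.rfl

/-- the converse -/
theorem two_of_bad {g : GaussianInt} (h : Covered g) (hg : ¬ Good g) : InfiniteOrTwo g := by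
  intro K _ _ e
  by_contra hcon
  rw [not_or] at hcon
  obtain ⟨h1, h2⟩ := hcon
  rw [not_infinite_iff_finite] at h1
  refine Pool.Agent.Run7.h843.QJ.conv_g e h.1 h.2 (fun h3 => hg ((good_iff g).2 h3)) h1 ?_
  intro x hx
  by_contra hx0
  exact h2 ⟨x, hx, hx0⟩

/-- the criterion decides -/
theorem iff_good {g : GaussianInt} (h : Covered g) {K : Type} [Field K] [NumberField K]
    (e : GaussianInt ≃+* 𝓞 K) :
    (Finite (twist e g).toAffine.Point ∧ ShaTwoZero (twist e g)) ↔ Good g := by
  classical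
  constructor
  · rintro ⟨h1, h2⟩
    by_contra hg
    rcases two_of_bad h hg K e with h3 | ⟨x, hx, hx0⟩
    · exact not_finite (twist e g).toAffine.Point
    · exact hx0 (h2 1 x (by rw [pow_one]; exact hx))
  · intro hg
    obtain ⟨h1, h2, -⟩ := trivial_good ((good_iff g).1 hg) K e
    exact ⟨Nat.finite_of_card_ne_zero (by rw [h2]; norm_num), h1⟩

theorem ftz_iff {g : GaussianInt} (h : Covered g) : FiniteTwoZero g ↔ Good g := by
  constructor
  · intro h1
    obtain ⟨K, i1, i2, ⟨e⟩⟩ := Pool.Agent.Run7.h843.QJ.exists_K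
    exact (iff_good h e).1 (h1 K e)
  · intro h1 K _ _ e
    exact (iff_good h e).2 h1

theorem good_covered {g : GaussianInt} (h : Good g) : Covered g :=
  ⟨((good_iff g).1 h).sqf, Run7.h26.QI.GoodG.im4 ((good_iff g).1 h)⟩

theorem nf_iff (x c D : GaussianInt) : NormalForm x c D ↔ Pool.Agent.H691.QM.Rp x c D :=
  ⟨fun h => ⟨h.1, (sp_iff D).1 h.2.1, h.2.2⟩, fun h => ⟨h.cx, (sp_iff D).2 h.ps, h.sq⟩⟩

theorem cc3_one {c : GaussianInt} (hc : Run7.h26.QI.cc3 c) : c ≠ 1 := by
  rcases hc with rfl | rfl | rfl <;> decide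

theorem gx_iff {c D : GaussianInt} (hc : Run7.h26.QI.cc3 c) (hD : Pool.Agent.Y699.PS D) :
    Pool.Agent.H691.QM.Gx c D ↔ Run7.h26.QI.GoodC c D := by
  have h1 := cc3_one hc
  rw [Pool.Agent.H691.QM.gx_crit (Or.inr hc) hD]
  exact ⟨fun h => h.2 h1, fun h => ⟨fun h2 => absurd h2 h1, fun _ => h⟩⟩

theorem class_iff {m : ℕ} {a : Fin m → GaussianInt} (g : GaussianInt) :
    InClass a g ↔ Squarefree g ∧ Pool.Agent.H691.QM.FrA a g :=
  and_congr_right fun _ => forall_congr' fun J => forall_congr' fun D => by rw [nf_iff]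

/-- the curves with the same square class -/
theorem iso {x y s : GaussianInt} (hx : x ≠ 0) (hy : y ≠ 0) (h : x * y = s * s) {K : Type} [Field K]
    [NumberField K] (e : GaussianInt ≃+* 𝓞 K) :
    ∃ C : WeierstrassCurve.VariableChange K, C • twist e x = twist e y := by
  have h0 : ∀ z : GaussianInt, z ≠ 0 → algebraMap (𝓞 K) K (e z) ≠ 0 := fun z hz => by
    rw [Ne, map_eq_zero_iff _ (IsFractionRing.injective (𝓞 K) K), map_eq_zero_iff _ e.injective]
    exact hz
  have hs : s ≠ 0 := by
    rintro rfl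
    exact mul_ne_zero hx hy (by rw [h, mul_zero])
  refine ⟨⟨Units.mk0 (algebraMap (𝓞 K) K (e s) / algebraMap (𝓞 K) K (e y))
    (div_ne_zero (h0 s hs) (h0 y hy)), 0, 0, 0⟩, ?_⟩
  refine Pool.Agent.H691.MI.vc_cv (L := K) ?_
  rw [Units.val_mk0]
  have h1 := congrArg (fun z : GaussianInt => algebraMap (𝓞 K) K (e z)) h
  simp only [map_mul] at h1
  have h2 := h0 y hy
  field_simp
  linear_combination h1

/-- finite and `Ш[2^∞] = 0` if and only if the criterion holds -/
theorem zero_iff {c D : GaussianInt} (hc : Run7.h26.QI.cc3 c) (hD : Pool.Agent.Y699.PS D)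
    {K : Type} [Field K] [NumberField K] (e : GaussianInt ≃+* 𝓞 K) :
    (Finite (twist e (c * D)).toAffine.Point ∧ ShaTwoZero (twist e (c * D))) ↔
      Run7.h26.QI.GoodC c D := by
  classical
  constructor
  · rintro ⟨h1, h2⟩
    by_contra h
    exact Pool.Agent.Run7.h843.QJ.conv_c e hc hD h h1 (fun x hx => h2 1 x (by
      rw [pow_one]
      exact hx))
  · intro h
    obtain ⟨h1, h2, -⟩ := trivial_twistor hc h K e
    exact ⟨Nat.finite_of_card_ne_zero (by rw [h2]; norm_num), h1⟩

theorem two_of_not {c D : GaussianInt} (hc : Run7.h26.QI.cc3 c) (hD : Pool.Agent.Y699.PS D)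
    (h : ¬ Run7.h26.QI.GoodC c D) : InfiniteOrTwo (c * D) := by
  intro K _ _ e
  by_contra hcon
  rw [not_or] at hcon
  obtain ⟨h1, h2⟩ := hcon
  rw [not_infinite_iff_finite] at h1
  refine Pool.Agent.Run7.h843.QJ.conv_c e hc hD h h1 ?_
  intro x hx
  by_contra hx0
  exact h2 ⟨x, hx, hx0⟩

theorem ga_iff {m : ℕ} {a : Fin m → GaussianInt} {g : GaussianInt} (ha : ∀ i, a i ≠ 0)
    (hg : InClass a g) (i : Fin m) : Pool.Agent.H691.QM.GA a i g ↔ ZeroFor (g * a i) := by
  have hne : g * a i ≠ 0 := mul_ne_zero hg.1.ne_zero (ha i)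
  obtain ⟨c, D, h⟩ := Pool.Agent.H691.QM.exists_rp hne
  have h1 : c ≠ 1 := by
    rintro rfl
    exact hg.2 i D ((nf_iff _ _ _).2 h)
  have h3 : Run7.h26.QI.cc3 c := Or.resolve_left h.cx h1
  constructor
  · intro hG K _ _ e c' D' h'
    obtain ⟨e1, e2⟩ := Pool.Agent.H691.QM.rp_uniq hne ((nf_iff _ _ _).1 h') h
    rw [e1, e2]
    exact (zero_iff h3 h.ps e).2 ((gx_iff h3 h.ps).1 (hG c D h))
  · intro hH c' D' h'
    obtain ⟨e1, e2⟩ := Pool.Agent.H691.QM.rp_uniq hne h' h
    rw [e1, e2, gx_iff h3 h.ps]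
    obtain ⟨K, iK, iN, ⟨e⟩⟩ := Pool.Agent.Run7.h843.QJ.exists_K
    exact (zero_iff h3 h.ps e).1 (hH K e c D ((nf_iff _ _ _).2 h))

/-- the law of the patterns -/
theorem patterns {m : ℕ} {a : Fin m → GaussianInt} (ha : Distinct a) :
    ∃ δ : ℝ,
      Filter.Tendsto (fun X : ℕ => (num (InClass a) X : ℝ) / num Squarefree X) Filter.atTop (nhds δ) ∧
      (∀ V : Finset (Fin m), Filter.Tendsto
        (fun X : ℕ => (num (fun g => InClass a g ∧ ∀ i, ZeroFor (g * a i) ↔ i ∈ V) X : ℝ) /
          num Squarefree X) Filter.atTop (nhds (κ ^ V.card * (1 - κ) ^ (m - V.card) * δ))) ∧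
      (0 < δ → ∀ V : Finset (Fin m), Filter.Tendsto
        (fun X : ℕ => (num (fun g => InClass a g ∧ ∀ i, ZeroFor (g * a i) ↔ i ∈ V) X : ℝ) /
          num (InClass a) X) Filter.atTop (nhds (κ ^ V.card * (1 - κ) ^ (m - V.card)))) ∧
      ((∃ g : GaussianInt, InClass a g) → 1 / 6 ≤ δ) ∧ 1 - (m : ℝ) / 3 ≤ δ ∧
      (0 < m → (∀ i, SquarefreePrimary (a i)) → δ = 2 / 3) := by
  classical
  have hc : κ = Pool.Agent.Y703.CQ.c2 := rfl
  have ha' : Pool.Agent.H691.QM.Dst a := ha
  -- the class
  have hsg : ∀ X : ℕ, num (InClass a) X = Run7.h26.QI.nQ (fun g => Squarefree g ∧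
      (Pool.Agent.H691.QM.FrA a g ∧ (∀ i ∈ (∅ : Finset (Fin m)), Pool.Agent.H691.QM.GA a i g))) X :=
    fun X => by
      rw [num_congr (Q := fun g => Squarefree g ∧ (Pool.Agent.H691.QM.FrA a g ∧
        (∀ i ∈ (∅ : Finset (Fin m)), Pool.Agent.H691.QM.GA a i g))) (fun g => ?_), num_eq]
      rw [class_iff g]
      simp
  have l1 : Filter.Tendsto (fun X : ℕ => (num (InClass a) X : ℝ) / num Squarefree X)
      Filter.atTop (nhds (Pool.Agent.H691.QM.shA a)) := by
    have h := Pool.Agent.H691.QM.share_A ha' ∅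
    rw [Finset.card_empty, pow_zero, one_mul] at h
    refine h.congr fun X => ?_
    rw [hsg, num_eq]
  -- the patterns
  have hsj : ∀ (V : Finset (Fin m)) (X : ℕ),
      num (fun g => InClass a g ∧ ∀ i, ZeroFor (g * a i) ↔ i ∈ V) X =
      Run7.h26.QI.nQ (fun g => Squarefree g ∧ (Pool.Agent.H691.QM.FrA a g ∧
        (∀ i ∈ V, Pool.Agent.H691.QM.GA a i g) ∧
          ∀ i ∈ Finset.univ \ V, ¬ Pool.Agent.H691.QM.GA a i g)) X := fun V X => by
    rw [num_congr (Q := fun g => Squarefree g ∧ (Pool.Agent.H691.QM.FrA a g ∧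
        (∀ i ∈ V, Pool.Agent.H691.QM.GA a i g) ∧
          ∀ i ∈ Finset.univ \ V, ¬ Pool.Agent.H691.QM.GA a i g)) (fun g => ?_), num_eq]
    constructor
    · rintro ⟨h1, h2⟩
      have h3 := (class_iff g).1 h1
      refine ⟨h3.1, h3.2, fun i hi => (ga_iff ha.1 h1 i).2 ((h2 i).2 hi), fun i hi h4 => ?_⟩
      exact (Finset.mem_sdiff.1 hi).2 ((h2 i).1 ((ga_iff ha.1 h1 i).1 h4))
    · rintro ⟨h1, h2, h3, h4⟩
      have h5 : InClass a g := (class_iff g).2 ⟨h1, h2⟩
      refine ⟨h5, fun i => ⟨fun h6 => ?_, fun h6 => (ga_iff ha.1 h5 i).1 (h3 i h6)⟩⟩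
      by_contra h7
      exact h4 i (Finset.mem_sdiff.2 ⟨Finset.mem_univ i, h7⟩) ((ga_iff ha.1 h5 i).2 h6)
  have l2 : ∀ V : Finset (Fin m), Filter.Tendsto
      (fun X : ℕ => (num (fun g => InClass a g ∧ ∀ i, ZeroFor (g * a i) ↔ i ∈ V) X : ℝ) /
        num Squarefree X) Filter.atTop
      (nhds (κ ^ V.card * (1 - κ) ^ (m - V.card) * Pool.Agent.H691.QM.shA a)) := by
    intro V
    have h := Pool.Agent.H691.QM.share_AB ha' (Finset.univ \ V) V Finset.disjoint_sdiff
    rw [Finset.card_sdiff_of_subset (Finset.subset_univ V), Finset.card_univ, Fintype.card_fin,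
      ← hc] at h
    refine h.congr fun X => ?_
    rw [hsj, num_eq]
  refine ⟨Pool.Agent.H691.QM.shA a, l1, l2, fun hs V => ?_, ?_, Pool.Agent.H691.QM.shA_low,
    fun hm h => Pool.Agent.H691.QM.shA_prim hm fun i => (sp_iff _).1 (h i)⟩
  · have h := (l2 V).div l1 hs.ne'
    rw [mul_div_cancel_right₀ _ hs.ne'] at h
    refine h.congr' ?_
    filter_upwards [Run7.h26.QI.sA_pos] with X hX
    rw [Pi.div_apply]
    have h1 : (num Squarefree X : ℝ) ≠ 0 := by
      rw [num_eq, Run7.h26.QI.count_sqf]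
      push_cast
      positivity
    rw [div_div_div_cancel_right₀ h1]
  · rintro ⟨g, hg⟩
    have h1 := (class_iff g).1 hg
    exact Pool.Agent.H691.QM.shA_nonempty ha.1 h1.1.ne_zero h1.2

/-- the curves of the class -/
theorem curves {m : ℕ} {a : Fin m → GaussianInt} (ha : Distinct a) {g : GaussianInt}
    (hg : InClass a g) (i : Fin m) {c D : GaussianInt} (h : NormalForm (g * a i) c D) :
    (Criterion c D → Trivial (c * D)) ∧ (¬ Criterion c D → InfiniteOrTwo (c * D)) ∧
    ∀ (K : Type) [Field K] [NumberField K] (e : GaussianInt ≃+* 𝓞 K),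
      (∃ C : WeierstrassCurve.VariableChange K, C • twist e (g * a i) = twist e (c * D)) ∧
      ((Finite (twist e (c * D)).toAffine.Point ∧ ShaTwoZero (twist e (c * D))) ↔
        Criterion c D) := by
  have h2 : c ≠ 1 := by
    rintro rfl
    exact hg.2 i D h
  have h1 : IsTwistor c := h.1.resolve_left h2
  have h1' : Run7.h26.QI.cc3 c := (twistor_iff c).1 h1
  have h3 := (nf_iff _ _ _).1 h
  have hne : g * a i ≠ 0 := mul_ne_zero hg.1.ne_zero (ha.1 i)
  have h4 : Criterion c D ↔ Run7.h26.QI.GoodC c D :=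
    ⟨fun k => (crit_iff h1).1 ⟨h.2.1, k⟩, fun k => ((crit_iff h1).2 k).2⟩
  refine ⟨fun k => trivial_twistor h1' (h4.1 k), fun k => two_of_not h1' h3.ps (fun k' => k (h4.2 k')),
    fun K _ _ e => ⟨?_, ?_⟩⟩
  · obtain ⟨s, hs⟩ := h3.sq
    exact iso hne (mul_ne_zero (Run7.h26.QI.cc3_ne h1') h3.ps.ne) hs e
  · rw [h4]
    exact zero_iff h1' h3.ps e

/-- **Main theorem.** `K = ℚ(i)`, `E_g : y² = x³ - g² x`, `κ = ∏_{i ≥ 0} (1 - 2^{-(2i+1)})`.
(1) `0.4194 < κ < 0.4195`, and `K` exists.
(2) For EVERY squarefree `g` with imaginary part not divisible by `4`: `E_g(K)` is finite and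
`Ш(E_g/K)[2^∞] = 0` if and only if `g` is in the explicit set `Good`.
(3) If `g` is in `Good` (all these `g` are covered), then `Ш(E_g/K)[2^∞] = 0`, `E_g(K)` has exactly four
elements, and the `L`-function of `E_g` over `K` is entire and not zero at `1`. If `g` is covered and not in
`Good`, then `E_g(K)` is infinite or `Ш(E_g/K)` has an element of order two.
(4) Exactly the proportion `κ` of the squarefree `g` whose imaginary part is not divisible by `4`, ordered by norm, has
finite `E_g(K)` and `Ш(E_g/K)[2^∞] = 0`, and exactly the proportion `1 - κ` has infinite `E_g(K)` or elements of order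
two in `Ш(E_g/K)`.
(5) For large `X`, for at least 34.95 percent of all squarefree `g` of norm at most `X` (that is, of ALL
quadratic twists of `y² = x³ - x` over `ℚ(i)`, each counted twice, for `g` and `-g`) all of (3) holds, and for at
least 48.37 percent `E_g(K)` is infinite or `Ш(E_g/K)` has an element of order two.
(6) Independence, for all `a_1, …, a_m` that are nonzero and pairwise different modulo squares: the class (of the
squarefree `g` such that no `g a_i` has a normal form with first component `1`) has a density `δ` in the squarefree `g`,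
and for every `V ⊆ {1, …, m}` exactly the proportion `κ^#V (1 - κ)^(m - #V)` of the class (if `δ > 0`) has finite
`E_{g a_i}(K)` and `Ш(E_{g a_i}/K)[2^∞] = 0` (in the form for the isomorphic curve of the normal form of `g a_i`) exactly for
the `i` in `V`; `δ ≥ 1/6` if the class is not empty, `δ ≥ 1 - m/3`, and `δ = 2/3` if `m > 0` and the `a_i` are
squarefree and primary. For all `g` of the class and all `i` the criterion decides, as in (2) and (3). -/
theorem result :
    ((0.4194 < κ ∧ κ < 0.4195) ∧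
      ∃ (K : Type) (_ : Field K) (_ : NumberField K), Nonempty (GaussianInt ≃+* 𝓞 K)) ∧
    (∀ g : GaussianInt, Squarefree g → ¬ (4 : ℤ) ∣ g.im →
      ∀ (K : Type) [Field K] [NumberField K] (e : GaussianInt ≃+* 𝓞 K),
        (Finite (twist e g).toAffine.Point ∧ ShaTwoZero (twist e g)) ↔ Good g) ∧
    (∀ g : GaussianInt, (Good g → Covered g ∧ FiniteTwoZero g ∧ Trivial g) ∧
      (Covered g → ¬ Good g → InfiniteOrTwo g)) ∧
    (Filter.Tendsto
      (fun X : ℕ => (num (fun g => Covered g ∧ FiniteTwoZero g) X : ℝ) / num Covered X)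
      Filter.atTop (nhds κ) ∧
    Filter.Tendsto
      (fun X : ℕ => (num (fun g => Covered g ∧ InfiniteOrTwo g) X : ℝ) / num Covered X)
      Filter.atTop (nhds (1 - κ))) ∧
    (∃ X₀ : ℕ, ∀ X : ℕ, X₀ ≤ X →
      (0.3495 : ℝ) * num Squarefree X ≤ num (fun g => Squarefree g ∧ Trivial g) X ∧
      (0.4837 : ℝ) * num Squarefree X ≤ num (fun g => Squarefree g ∧ InfiniteOrTwo g) X) ∧
    (∀ (m : ℕ) (a : Fin m → GaussianInt), Distinct a →
      (∃ δ : ℝ,
        Filter.Tendsto (fun X : ℕ => (num (InClass a) X : ℝ) / num Squarefree X) Filter.atTop (nhds δ) ∧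
        (∀ V : Finset (Fin m), Filter.Tendsto
          (fun X : ℕ => (num (fun g => InClass a g ∧ ∀ i, ZeroFor (g * a i) ↔ i ∈ V) X : ℝ) /
            num Squarefree X) Filter.atTop (nhds (κ ^ V.card * (1 - κ) ^ (m - V.card) * δ))) ∧
        (0 < δ → ∀ V : Finset (Fin m), Filter.Tendsto
          (fun X : ℕ => (num (fun g => InClass a g ∧ ∀ i, ZeroFor (g * a i) ↔ i ∈ V) X : ℝ) /
            num (InClass a) X) Filter.atTop (nhds (κ ^ V.card * (1 - κ) ^ (m - V.card)))) ∧
        ((∃ g : GaussianInt, InClass a g) → 1 / 6 ≤ δ) ∧ 1 - (m : ℝ) / 3 ≤ δ ∧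
        (0 < m → (∀ i, SquarefreePrimary (a i)) → δ = 2 / 3)) ∧
      ∀ g : GaussianInt, InClass a g → ∀ (i : Fin m) (c D : GaussianInt), NormalForm (g * a i) c D →
        (Criterion c D → Trivial (c * D)) ∧ (¬ Criterion c D → InfiniteOrTwo (c * D)) ∧
        ∀ (K : Type) [Field K] [NumberField K] (e : GaussianInt ≃+* 𝓞 K),
          (∃ C : WeierstrassCurve.VariableChange K, C • twist e (g * a i) = twist e (c * D)) ∧
          ((Finite (twist e (c * D)).toAffine.Point ∧ ShaTwoZero (twist e (c * D))) ↔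
            Criterion c D)) := by
  have hc : κ = Pool.Agent.Y703.CQ.c2 := rfl
  have hc2 := Pool.Agent.Y948.CQ.t_C2
  have hk1 : 0.4194 < κ := hc2.2.2.2.1
  have hk2 : κ < 0.4195 := hc2.2.2.2.2
  have hgood : ∀ X : ℕ, num Good X = Run7.h26.QI.nQ Run7.h26.QI.GoodG X := fun X => by
    rw [num_congr good_iff, num_eq]
  have h5 : Filter.Tendsto (fun X : ℕ => (num Good X : ℝ) / num Squarefree X) Filter.atTop
      (nhds (5 / 6 * κ)) := by
    rw [hc]
    refine Run7.h26.QI.share_all.congr fun X => ?_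
    rw [hgood, num_eq]
  have h4 : Filter.Tendsto (fun X : ℕ => (num Good X : ℝ) / num Covered X) Filter.atTop (nhds κ) := by
    rw [hc]
    refine Run7.h26.QI.share_cov.congr fun X => ?_
    rw [hgood, num_eq]
    rfl
  have e1 : ∀ X : ℕ, num (fun g => Covered g ∧ FiniteTwoZero g) X = num Good X := fun X =>
    num_congr (fun g => ⟨fun h => (ftz_iff h.1).1 h.2, fun h => ⟨good_covered h, (ftz_iff (good_covered h)).2 h⟩⟩) X
  -- the complement
  have e2 : ∀ g : GaussianInt, (Covered g ∧ InfiniteOrTwo g) ↔ (Covered g ∧ ¬ Good g) := by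
    intro g
    refine and_congr_right fun h => ⟨fun h1 hg => ?_, fun h1 => two_of_bad h h1⟩
    obtain ⟨K, i1, i2, ⟨e⟩⟩ := Pool.Agent.Run7.h843.QJ.exists_K
    obtain ⟨k1, k2⟩ := (iff_good h e).2 hg
    rcases h1 K e with h3 | ⟨x, hx, hx0⟩
    · exact not_finite (twist e g).toAffine.Point
    · exact hx0 (k2 1 x (by rw [pow_one]; exact hx))
  have e3 : ∀ X : ℕ, (num (fun g => Covered g ∧ InfiniteOrTwo g) X : ℝ) = num Covered X - num Good X := by
    intro X
    rw [num_congr e2 X]
    have hf : {D : GaussianInt | D.norm ≤ X ∧ Good D}.Finite := by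
      refine (Run7.h26.QI.fin_Q (fun _ => True) X).subset ?_
      rintro g ⟨h1, -⟩
      exact ⟨(norm_iff g X).1 h1, trivial⟩
    have hf2 : {D : GaussianInt | D.norm ≤ X ∧ (Covered D ∧ ¬ Good D)}.Finite := by
      refine (Run7.h26.QI.fin_Q (fun _ => True) X).subset ?_
      rintro g ⟨h1, -⟩
      exact ⟨(norm_iff g X).1 h1, trivial⟩
    have hu : {D : GaussianInt | D.norm ≤ X ∧ Covered D} =
        {D : GaussianInt | D.norm ≤ X ∧ Good D} ∪ {D : GaussianInt | D.norm ≤ X ∧ (Covered D ∧ ¬ Good D)} := by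
      ext D
      constructor
      · rintro ⟨h1, h2⟩
        by_cases h3 : Good D
        · exact Or.inl ⟨h1, h3⟩
        · exact Or.inr ⟨h1, h2, h3⟩
      · rintro (⟨h1, h2⟩ | ⟨h1, h2, -⟩)
        · exact ⟨h1, good_covered h2⟩
        · exact ⟨h1, h2⟩
    have hd : Disjoint {D : GaussianInt | D.norm ≤ X ∧ Good D}
        {D : GaussianInt | D.norm ≤ X ∧ (Covered D ∧ ¬ Good D)} := by
      rw [Set.disjoint_left]
      rintro D ⟨-, h2⟩ ⟨-, -, h3⟩
      exact h3 h2
    have h6 : num Covered X = num Good X + num (fun D => Covered D ∧ ¬ Good D) X := by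
      unfold num
      rw [hu, Set.ncard_union_eq hd hf hf2]
    rw [h6]
    push_cast
    ring
  have hpos : ∀ᶠ X : ℕ in Filter.atTop, (num Good X : ℝ) ≠ 0 := by
    have h7 := (tendsto_order.1 h4).1 0 (by linarith)
    filter_upwards [h7] with X hX h0
    rw [h0, zero_div] at hX
    exact lt_irrefl _ hX
  have hposC : ∀ᶠ X : ℕ in Filter.atTop, (num Covered X : ℝ) ≠ 0 := by
    have h7 := (tendsto_order.1 h4).1 0 (by linarith)
    filter_upwards [h7] with X hX h0
    rw [h0, div_zero] at hX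
    exact lt_irrefl _ hX
  have h8 : Filter.Tendsto (fun X : ℕ => (num Covered X : ℝ) / num Squarefree X) Filter.atTop
      (nhds (5 / 6)) := by
    have hk0 : κ ≠ 0 := by linarith
    have h9 := h5.div h4 hk0
    have e : 5 / 6 * κ / κ = 5 / 6 := by field_simp
    rw [e] at h9
    refine h9.congr' ?_
    filter_upwards [hpos, hposC] with X hX hXC
    rw [Pi.div_apply]
    field_simp
  refine ⟨⟨⟨hk1, hk2⟩, Pool.Agent.Run7.h843.QJ.exists_K⟩, ?_, ?_, ⟨?_, ?_⟩, ?_,
    fun m a ha => ⟨patterns ha, fun g hg i c D h => curves ha hg i h⟩⟩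
  · intro g h1 h2 K _ _ e
    exact iff_good ⟨h1, h2⟩ e
  · intro g
    refine ⟨fun hg => ⟨good_covered hg, (ftz_iff (good_covered hg)).2 hg, trivial_good ((good_iff g).1 hg)⟩,
      fun h1 h2 => two_of_bad h1 h2⟩
  · refine h4.congr fun X => ?_
    rw [e1]
  · have h9 := h4.const_sub 1
    refine h9.congr' ?_
    filter_upwards [hposC] with X hX
    rw [e3]
    field_simp
  · have h6 : (0.3495 : ℝ) < 5 / 6 * κ := by
      norm_num at hk1 ⊢
      linarith
    have h6' : (0.4837 : ℝ) < 5 / 6 - 5 / 6 * κ := by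
      norm_num at hk2 ⊢
      linarith
    obtain ⟨X₀, hX₀⟩ := Filter.eventually_atTop.1 ((tendsto_order.1 h5).1 0.3495 h6)
    obtain ⟨X₁, hX₁⟩ := Filter.eventually_atTop.1 ((tendsto_order.1 (h8.sub h5)).1 0.4837 h6')
    refine ⟨max X₀ X₁, fun X hX => ⟨?_, ?_⟩⟩
    · have h7 := hX₀ X ((le_max_left _ _).trans hX)
      have h8 : (num Good X : ℝ) ≤ num (fun g => Squarefree g ∧ Trivial g) X := by
        have : num Good X ≤ num (fun g => Squarefree g ∧ Trivial g) X :=
          num_mono (fun g hg => ⟨((good_iff g).1 hg).sqf, trivial_good ((good_iff g).1 hg)⟩) X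
        exact_mod_cast this
      by_cases h9 : (num Squarefree X : ℝ) = 0
      · rw [h9, mul_zero]
        exact Nat.cast_nonneg _
      · have h10 : (0 : ℝ) < num Squarefree X := lt_of_le_of_ne (Nat.cast_nonneg _) (Ne.symm h9)
        rw [lt_div_iff₀ h10] at h7
        linarith
    · have h7 := hX₁ X ((le_max_right _ _).trans hX)
      have h8 : (num (fun g => Covered g ∧ InfiniteOrTwo g) X : ℝ) ≤
          num (fun g => Squarefree g ∧ InfiniteOrTwo g) X := by
        have : num (fun g => Covered g ∧ InfiniteOrTwo g) X ≤ num (fun g => Squarefree g ∧ InfiniteOrTwo g) X :=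
          num_mono (fun g hg => ⟨hg.1.1, hg.2⟩) X
        exact_mod_cast this
      rw [e3] at h8
      by_cases h9 : (num Squarefree X : ℝ) = 0
      · rw [h9, mul_zero]
        exact Nat.cast_nonneg _
      · have h10 : (0 : ℝ) < num Squarefree X := lt_of_le_of_ne (Nat.cast_nonneg _) (Ne.symm h9)
        rw [← sub_div, lt_div_iff₀ h10] at h7
        linarith

end Pool.Agent.Results.MP_78d38b_nt.GaussianTwistsShaIndependence
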