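import Mathlib
import Pool.Agent.Run7.h318.SF.U2

/-!
# The second moment of `2 ^ rank * #Ш[2]` for the elliptic curves with full rational 2-torsion

`Ш(W)` is the Tate-Shafarevich group of the elliptic curve `W` over `ℚ`, defined in
`Pool/Agent/W262/SH/Stm.lean` with continuous cocycles of the absolute Galois group of `ℚ` which are
locally trivial at all the primes and at infinity; `Ш(W)[2] = {c : Sha W // c + c = 0}`.

Every elliptic curve over `ℚ` with full rational 2-torsion is isomorphic to a curve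
`y² = x (x - a) (x - b)` with integers `a`, `b`. The average of `(2 ^ rank * #Ш[2]) ^ 2` is bounded
1. over the pairs `(a, b)` in a square of side `H`, uniformly over all the squares whose distance from
   the origin is at most a fixed power of `H`;
2. over all the elliptic curves over `ℚ` with full rational 2-torsion, ordered by height.

The counting of the local conditions is the one of helper69 (`Pool/Agent/Run7/h69`, used there for
the rank); the descent on the Tate-Shafarevich group is the one of `Pool/Agent/Run7/h318/SH`.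
-/

set_option autoImplicit false

namespace Pool.Agent.Results.MP_78d38b_nt.SecondMomentFullTorsion

open Finset Filter

open scoped Classical

/-- the elements of the Tate-Shafarevich group of `W` over `ℚ` killed by two -/
abbrev ShaTwo (W : WeierstrassCurve ℚ) : Type := {c : Pool.Agent.W262.SH.Sha W // c + c = 0}

/-- `2 ^ rank * #Ш[2]` -/
noncomputable def size (W : WeierstrassCurve ℚ) : ℕ :=
  2 ^ Module.finrank ℤ W.toAffine.Point * Nat.card (ShaTwo W)

/-- the curve `y² = x (x - a) (x - b)` over `ℚ` -/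
def E (a b : ℤ) : WeierstrassCurve ℚ := ⟨0, -((a : ℚ) + b), 0, (a : ℚ) * b, 0⟩

/-- the pairs `(a, b)` with `x < a ≤ x + H`, `y < b ≤ y + H`, `a b (a - b) ≠ 0` -/
noncomputable def Square (x y : ℤ) (H : ℕ) : Finset (ℤ × ℤ) :=
  ((Ioc x (x + H)) ×ˢ (Ioc y (y + H))).filter (fun t => t.1 ≠ 0 ∧ t.2 ≠ 0 ∧ t.1 ≠ t.2)

/-- the curve `y² = x³ + A x + B` over `ℚ` -/
def Es (A B : ℤ) : WeierstrassCurve ℚ := ⟨0, 0, 0, (A : ℚ), (B : ℚ)⟩

/-- The pairs `(A, B)` of integers such that `4 A³ + 27 B² ≠ 0`, there is no prime `p` with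
`p⁴ ∣ A` and `p⁶ ∣ B`, the height `max (4 |A|³) (27 B²)` is at most `H`, and `Z/2 x Z/2` embeds in
the group of the rational points of `y² = x³ + A x + B`. (The bounds `|A|, |B| ≤ H` follow from the
bound of the height. Every elliptic curve over `ℚ` is isomorphic to `Es A B` for exactly one pair
with the first two properties.) -/
noncomputable def Fam (H : ℕ) : Finset (ℤ × ℤ) :=
  ((Icc (-(H : ℤ)) H) ×ˢ (Icc (-(H : ℤ)) H)).filter (fun c : ℤ × ℤ =>
    4 * c.1 ^ 3 + 27 * c.2 ^ 2 ≠ 0 ∧ 4 * |c.1| ^ 3 ≤ H ∧ 27 * c.2 ^ 2 ≤ H ∧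
    (∀ p : ℕ, p.Prime → ¬ ((p : ℤ) ^ 4 ∣ c.1 ∧ (p : ℤ) ^ 6 ∣ c.2)) ∧
    ∃ f : ZMod 2 × ZMod 2 →+ (Es c.1 c.2).toAffine.Point, Function.Injective f)

lemma size_E (A B : ℤ) : size (E A B) = Run7.h318.SH.RR A B := rfl

lemma Fam_eq (H : ℕ) : Fam H = Pool.Agent.W307.RT.Cv 2 H := by
  unfold Fam Pool.Agent.W307.RT.Cv
  apply filter_congr
  intro c _
  have h : Pool.Agent.W307.RT.HasT 2 (Pool.Agent.W307.RT.Sh c.1 c.2) ↔
      ∃ f : ZMod 2 × ZMod 2 →+ (Es c.1 c.2).toAffine.Point, Function.Injective f :=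
    Pool.Agent.W307.RT.tors_iff
  rw [h]

/-- **Theorem.** For the elliptic curves over `ℚ` with full rational 2-torsion the group `Ш[2]` is
finite and the average of `(2 ^ rank * #Ш[2]) ^ 2` is bounded, in short squares of the parameters
and by height. -/
theorem result :
    (∀ a b : ℤ, a ≠ 0 → b ≠ 0 → a ≠ b → Finite (ShaTwo (E a b))) ∧
    (∀ ε : ℝ, 0 < ε → ∃ C : ℝ, ∀ (x y : ℤ) (H : ℕ), 1 ≤ H → |(x : ℝ)| ^ ε ≤ H →
      |(y : ℝ)| ^ ε ≤ H → ∑ t ∈ Square x y H, (size (E t.1 t.2) : ℝ) ^ 2 ≤ C * (H : ℝ) ^ 2) ∧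
    Tendsto (fun H : ℕ => (Fam H).card) atTop atTop ∧
    (∀ H : ℕ, ∀ c ∈ Fam H, Finite (ShaTwo (Es c.1 c.2))) ∧
    ∃ C : ℝ, ∀ H : ℕ, ∑ c ∈ Fam H, (size (Es c.1 c.2) : ℝ) ^ 2 ≤ C * (Fam H).card := by
  refine ⟨fun a b ha hb hab => Run7.h318.SH.fin_EAB ha hb hab, fun ε hε => ?_, ?_, ?_, ?_⟩
  · set L : ℕ := ⌈1 / ε⌉₊ with hL
    obtain ⟨C, _, hC⟩ := Run7.h318.SF.box L
    refine ⟨C, fun x y H hH hx hy => ?_⟩
    have hHr : (1 : ℝ) ≤ H := by exact_mod_cast hH
    have key : ∀ x : ℤ, |(x : ℝ)| ^ ε ≤ H → x.natAbs ≤ H ^ L := by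
      intro x hx
      have h2 : |(x : ℝ)| ≤ (H : ℝ) ^ (L : ℝ) := by
        calc |(x : ℝ)| = (|(x : ℝ)| ^ ε) ^ (1 / ε) := by
              rw [← Real.rpow_mul (abs_nonneg _), mul_one_div_cancel hε.ne', Real.rpow_one]
          _ ≤ (H : ℝ) ^ (1 / ε) := Real.rpow_le_rpow (by positivity) hx (by positivity)
          _ ≤ (H : ℝ) ^ (L : ℝ) := Real.rpow_le_rpow_of_exponent_le hHr (Nat.le_ceil _)
      rw [Real.rpow_natCast] at h2
      have h3 : ((x.natAbs : ℕ) : ℝ) = |(x : ℝ)| := by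
        rw [Nat.cast_natAbs, Int.cast_abs]
      have h4 : ((x.natAbs : ℕ) : ℝ) ≤ ((H ^ L : ℕ) : ℝ) := by
        rw [h3]
        push_cast
        exact h2
      exact_mod_cast h4
    have h1 := hC (x, y) H hH (key x hx) (key y hy)
    refine le_trans (le_of_eq ?_) h1
    have hS : Square x y H = Run7.h69.UF.SS (x, y) H := by
      unfold Square Run7.h69.UF.SS Run7.h69.UF.Bx
      apply filter_congr
      intro t _
      unfold Run7.h69.UF.FF
      constructor
      · rintro ⟨a1, a2, a3⟩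
        exact mul_ne_zero (mul_ne_zero a1 a2) (sub_ne_zero.2 a3)
      · intro h
        exact ⟨left_ne_zero_of_mul (left_ne_zero_of_mul h),
          right_ne_zero_of_mul (left_ne_zero_of_mul h), sub_ne_zero.1 (right_ne_zero_of_mul h)⟩
    rw [hS]
    rfl
  · simp only [Fam_eq]
    exact Pool.Agent.W307.RT.tendsto_of_low Run7.h69.UH.low2
  · simp only [Fam_eq]
    intro H c hc
    have h1 := Run7.h69.UH.F_spec hc
    unfold Pool.Agent.W307.RT.Cv at hc
    rw [mem_filter] at hc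
    exact (Run7.h318.SF.rel_rrw h1 hc.2.1).1
  · simp only [Fam_eq]
    exact Run7.h318.SF.height

end Pool.Agent.Results.MP_78d38b_nt.SecondMomentFullTorsion
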