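import Pool.Agent.Run7.h555.XK.Fin
import Pool.Agent.Run7.h741.XK.Plc3
import Pool.Agent.Run7.h238.XK.TAMK
import Pool.Agent.Run7.h238.XK.W0
import Pool.Agent.Run7.h238.XK.RK4
import Pool.Agent.Run7.h289.XK.M15K
import Pool.Agent.Run7.h289.XK.MANY
import Pool.Agent.Run7.h289.XK.JDENS
import Pool.Agent.Run7.h289.D18.Jw
import Pool.Agent.Run7.h135.XK.Alg

/-!
# The Tate-Shafarevich group of `X_0(15)` over imaginary quadratic fields

`E` is the curve `X_0(15) : y² + x y + y = x³ + x² - 10 x - 10` (no complex multiplication), and `K` runs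
through ALL imaginary quadratic fields in which two is unramified, three splits and five is inert and
whose discriminant `D` is `13` or `37` modulo `60`; `t` is the number of the prime divisors of `D` and
`r` the 4-rank of the class group of `K`. There is no condition on the number or the type of the
ramified primes, and no hypothesis on ranks, on `Ш` or on L-functions.

For every such `K`:
* `E(K)` is finitely generated, `rank E(K) ≤ 2 r`, and `#Ш(E/K)[2] · 2^(rank E(K)) = 4^(t-1)`; so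
  `#Ш(E/K)[2]` lies between `4^(t-1-r)` and `4^(t-1)`; and `L(E/K, s)` is entire;
* if `r = 0`, then `E(K)` has order `8`, `Ш(E/K)[2^∞]` is finite, killed by two and of order `4^(t-1)`,
  and `L(E/K, 1) ≠ 0`. So `Ш(E/K)[2^∞]` is known exactly, and the whole group `Ш(E/K)` is finite by the
  theorem of Kolyvagin (which is not used here).
The joint law of the 4-ranks for finitely many multipliers `a_i`: for any `r_i ≥ 0` and any `m`, exactly
the proportion `∏ g(r_i)` of the fields `K`, ordered by the discriminant, has `t ≥ m` and 4-rank `r_i` for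
the class group of `ℚ(√(a_i D))` for all `i` (and all these fields are again in the class), where
`g(r) = η 2^{-r²} ∏_{j ≤ r} (1 - 2^{-j})^{-2}`, `η = ∏_{j ≥ 1} (1 - 2^{-j}) = 0.2888...`. In particular
`Ш(E/K)[2^∞]` is isomorphic to `(ℤ/2)^(2(t-1))` with `t ≥ m`, for any `m`, for a proportion at least `η`
of the fields.

The theorem is joint work (project XK) of helper135, helper289, helper555, helper238, helper741,
helper424, helper376, helper374, helper377, helper919, helper437, helper639, helper834, helper890 and of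
the authors of the theorem on the twists over `ℚ` (helper89, helper209, helper483, helper691, helper843,
helper916); this file (helper89) states the part on `Ш`.
-/

set_option autoImplicit false

open NumberField IsDedekindDomain WeierstrassCurve Filter Topology

namespace Pool.Agent.Results.MP_78d38b_nt.ShaImaginaryQuadratic

open Pool.Agent.TH841.NF.D (Sha)
open Pool.Agent.Y682 (MP)

/-- The curve `X_0(15) : y² + x y + y = x³ + x² - 10 x - 10`. -/
def E : WeierstrassCurve ℤ := ⟨1, 1, 1, -10, -10⟩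

/-- The curve given by the equation of `W` over the ring `R`. -/
abbrev base (W : WeierstrassCurve ℤ) (R : Type) [CommRing R] : WeierstrassCurve R :=
  W.map (Int.castRingHom R)

/-- The 2-primary part of the Tate-Shafarevich group over `K`. -/
def Sha2 {K : Type} [Field K] [NumberField K] (W : WeierstrassCurve K) : Set (Sha W) :=
  {x | ∃ n : ℕ, 2 ^ n • x = 0}

/-- `K` is an imaginary quadratic field with discriminant `13` or `37` modulo `60` (two is unramified,
three splits, five is inert). -/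
def Class (K : Type) [Field K] [NumberField K] : Prop :=
  Module.finrank ℚ K = 2 ∧ discr K < 0 ∧ (discr K % 60 = 13 ∨ discr K % 60 = 37)

/-- The number of the prime divisors of the discriminant. -/
noncomputable def ram (K : Type) [Field K] [NumberField K] : ℕ :=
  (discr K).natAbs.primeFactors.card

/-- The class group of `K` has 4-rank `r`: exactly `2^r` elements are squares of elements killed by
four. -/
def FourRank (r : ℕ) (K : Type) [Field K] [NumberField K] : Prop :=
  Nat.card {y : ClassGroup (𝓞 K) // ∃ x : ClassGroup (𝓞 K), x ^ 4 = 1 ∧ x ^ 2 = y} = 2 ^ r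

/-- `F` is the entire continuation of the L-function of `E` over `K`. -/
def IsLFun (K : Type) [Field K] [NumberField K] (F : ℂ → ℂ) : Prop :=
  Differentiable ℂ F ∧ ∀ s : ℂ, 2 < s.re → F s = (base E K).LSeries s

/-- `E(K)` has order `8`, the 2-primary part of `Ш(E/K)` is killed by two and has order `4^(t-1)`, and
the L-function does not vanish at `s = 1`. -/
def Known (K : Type) [Field K] [NumberField K] : Prop :=
  Nat.card (base E K).toAffine.Point = 8 ∧
  (∀ x ∈ Sha2 (base E K), 2 • x = 0) ∧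
  Nat.card (Sha2 (base E K)) = 4 ^ (ram K - 1) ∧
  ∃ F : ℂ → ℂ, IsLFun K F ∧ F 1 ≠ 0

/-- `L` is the quadratic field `ℚ(√(a Disc K))`. -/
def IsTwist (a : ℕ) (K : Type) [Field K] [NumberField K] (L : Type) [Field L] [NumberField L] :
    Prop :=
  Module.finrank ℚ L = 2 ∧ ∃ r : L, r ^ 2 = (a : L) * (discr K : L)

/-- The class group of the field `ℚ(√(a Disc K))` has 4-rank `r`. -/
def FourRankTwist (a r : ℕ) (K : Type) [Field K] [NumberField K] : Prop :=
  ∃ (L : Type) (_ : Field L) (_ : NumberField L), IsTwist a K L ∧ FourRank r L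

/-- The number of the fields `K` in the class with `|Disc K| ≤ X` and the property `Q` (an imaginary
quadratic field is determined by its discriminant). -/
noncomputable def num (Q : ∀ (K : Type) [Field K] [NumberField K], Prop) (X : ℕ) : ℕ :=
  Nat.card {n : ℕ // n ≤ X ∧ ∃ (K : Type) (_ : Field K) (_ : NumberField K),
    Class K ∧ discr K = -(n : ℤ) ∧ Q K}

/-- the constant `0.2888...` -/
noncomputable def eta : ℝ := ∏' i : ℕ, (1 - (1 / 2 : ℝ) ^ (i + 1))

/-- `g(r) = η / (2^(r²) ∏_{j ≤ r} (1 - 2^{-j})²)` -/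
noncomputable def g (r : ℕ) : ℝ :=
  eta / (2 ^ (r ^ 2) * (∏ i ∈ Finset.range r, (1 - (1 / 2 : ℝ) ^ (i + 1))) ^ 2)

/-- the multipliers -/
def Mult (a : ℕ) : Prop := Squarefree a ∧ a % 12 = 1 ∧ (a % 5 = 1 ∨ a % 5 = 4)

section proof

open _root_.Run7.h555.XK (QF Cl ClK Pk)
open Pool.Agent.N969.P15 (Qc)
open Pool.Agent.Run7.h289.D18 (Nf Prp nm)
open Pool.Agent.Run7.h238.J (tw)

variable {K : Type} [Field K] [NumberField K] {n : ℕ}

theorem ram_eq (hd : discr K = -(n : ℤ)) : ram K = n.primeFactors.card := by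
  unfold ram
  rw [hd, Int.natAbs_neg, Int.natAbs_natCast]

theorem g_eq (r : ℕ) : _root_.Run7.h843.L.gk r = g r := _root_.Run7.h843.L.gk_eq r

/-- everything for one field -/
theorem pk (hK : QF K n) (hn : Cl n) : Pk K n :=
  _root_.Run7.h555.XK.pack _root_.Run7.h741.XK.Plc.t_PLC Pool.Agent.Run7.h289.XK.t_M15K
    _root_.Run7.h238.XK.t_W0 _root_.Run7.h238.XK.t_MINK _root_.Run7.h238.XK.t_TAMK
    (fun K _ _ n hK hn hq => by
      rw [_root_.Run7.h555.XK.base_eq']
      exact _root_.Run7.h135.XK.alg_fin hn hq hK.two hK.sq) hK hn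

theorem fr_iff (hK : QF K n) (hn : Cl n) (r : ℕ) : FourRank r K ↔ Nf n = 2 ^ (r + 1) := by
  unfold FourRank
  rw [_root_.Run7.h238.XK.Nf_qn hn.1.ne_zero, _root_.Run7.h555.XK.qn_eq hK hn, pow_succ]
  omega

theorem qc_of (hK : QF K n) (hn : Cl n) (h : FourRank 0 K) : Qc n := by
  refine (_root_.Run7.h555.XK.no_four hK hn).2 fun c hc => ?_
  unfold FourRank at h
  rw [pow_zero] at h
  obtain ⟨h2, -⟩ := Nat.card_eq_one_iff_unique.1 h
  have h3 := h2.allEq ⟨c ^ 2, c, hc, rfl⟩ ⟨1, 1, one_pow 4, one_pow 2⟩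
  exact congrArg Subtype.val h3

/-- the case of 4-rank zero -/
theorem known (hK : QF K n) (hn : Cl n) (hd : discr K = -(n : ℤ)) (hq : Qc n) : Known K := by
  have hp := pk hK hn
  obtain ⟨F, hF, hs, y, hy, hv⟩ := hp.val
  have hv' : F 1 * (((√|(discr K : ℝ)| : ℝ) : ℂ) * 8 ^ 2) =
      (y : ℂ) ^ 2 * 4 ^ (n.primeFactors.card - 1) *
        (((_root_.Run7.h555.XK.Omega K _root_.Run7.h555.XK.E : ℝ) : ℂ) *
          (_root_.Run7.h555.XK.Tam (_root_.Run7.h555.XK.base _root_.Run7.h555.XK.E K) : ℂ)) := hv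
  have hT : _root_.Run7.h555.XK.Tam (_root_.Run7.h555.XK.base _root_.Run7.h555.XK.E K) = 16 := hp.tam
  have hO : 0 < _root_.Run7.h555.XK.Omega K _root_.Run7.h555.XK.E := hp.om
  obtain ⟨a1, a2, a3⟩ := hp.alg hq
  have hyo := hy.2 hq
  refine ⟨a1, ?_, ?_, F, ⟨hF, fun s h => hs s h⟩, ?_⟩
  · rintro x ⟨k, hk⟩
    exact a2 k x hk
  · rw [ram_eq hd]
    exact a3
  · intro h0
    rw [h0, zero_mul, hT] at hv'
    have hy0 : (y : ℂ) ≠ 0 := by
      intro h2
      have h3 : y = 0 := by exact_mod_cast h2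
      rw [h3] at hyo
      exact absurd hyo (by decide)
    exact mul_ne_zero (mul_ne_zero (pow_ne_zero 2 hy0) (pow_ne_zero _ (by norm_num)))
      (mul_ne_zero (by exact_mod_cast hO.ne') (by norm_num)) hv'.symm

/-- the Mordell-Weil group and the 2-torsion of `Ш` -/
theorem sel (hK : QF K n) (hn : Cl n) : Module.Finite ℤ (MP (base E K)) ∧
    Nat.card {x : Sha (base E K) // 2 • x = 0} * 2 ^ Module.finrank ℤ (MP (base E K)) =
      4 ^ (n.primeFactors.card - 1) := by
  rw [show base E K = (⟨1, 1, 1, -10, -10⟩ : WeierstrassCurve K) from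
    _root_.Run7.h555.XK.base_eq' K]
  exact _root_.Run7.h135.XK.sel_fin hn hK.two hK.sq

theorem rank_le (hK : QF K n) (hn : Cl n) : ∃ r : ℕ, FourRank r K ∧
    Module.finrank ℤ (MP (base E K)) ≤ 2 * r := by
  obtain ⟨s, hs⟩ := hK.sq
  obtain ⟨r, h1, -, -, h2⟩ := _root_.Run7.h238.XK.rk4 _root_.Run7.h135.XK.t_FQ hK hn
    (_root_.Run7.h741.XK.Plc.gen_of hn.1.ne_zero hK.two hs)
  refine ⟨r, h1, ?_⟩
  rw [show base E K = (⟨1, 1, 1, -10, -10⟩ : WeierstrassCurve K) from
    _root_.Run7.h555.XK.base_eq' K]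
  exact h2

/-- counting -/
theorem num_eq {Q : ∀ (K : Type) [Field K] [NumberField K], Prop} {Q' : ℕ → Prop}
    (h : ∀ (K : Type) [Field K] [NumberField K] (n : ℕ), QF K n → Cl n → discr K = -(n : ℤ) →
      (Q K ↔ Q' n)) (X : ℕ) :
    num Q X = Nat.card {n : ℕ // n ≤ X ∧ Cl n ∧ Q' n} := by
  unfold num
  refine Nat.card_congr (Equiv.subtypeEquivRight fun n => and_congr_right fun _ => ?_)
  constructor
  · rintro ⟨K, i1, i2, hK, hd, hQ⟩
    obtain ⟨m, h1, h2, h3⟩ := ClK.ex (K := K) hK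
    have h4 : m = n := by
      rw [h3] at hd
      omega
    subst h4
    exact ⟨h2, (h K m h1 h2 h3).1 hQ⟩
  · rintro ⟨hn, hQ⟩
    obtain ⟨K, i1, i2, h1, h2, h3⟩ := hn.exK
    exact ⟨K, i1, i2, h1, h3, (h K n h2 hn h3).2 hQ⟩

theorem mult {a : ℕ} (ha : Mult a) : Pool.Agent.Run7.h289.XK.Mult a := ⟨ha.1, ha.2.1, ha.2.2⟩

theorem twist_QF {a : ℕ} (hn : Cl n) (hd : discr K = -(n : ℤ)) (L : Type) [Field L]
    [NumberField L] (h : IsTwist a K L) : QF L (tw a n) := by
  have hmul := Pool.Agent.Run7.h289.D18.tw_mul a n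
  have hg : Nat.gcd a n ≠ 0 := fun h0 => hn.1.ne_zero (Nat.eq_zero_of_gcd_eq_zero_right h0)
  obtain ⟨h2, r, hr⟩ := h
  refine ⟨h2, r / (Nat.gcd a n : L), ?_⟩
  have hgL : ((Nat.gcd a n : ℕ) : L) ≠ 0 := by exact_mod_cast hg
  have hmulL : ((tw a n : ℕ) : L) * ((Nat.gcd a n : ℕ) : L) ^ 2 =
      (a : L) * (n : L) := by exact_mod_cast congrArg (Nat.cast (R := L)) hmul
  rw [div_pow, hr, hd, div_eq_iff (pow_ne_zero 2 hgL)]
  push_cast
  linear_combination hmulL

/-- the field of a multiplier is in the class -/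
theorem class_twist {a : ℕ} (ha : Mult a) (hn : Cl n) (hd : discr K = -(n : ℤ)) (L : Type)
    [Field L] [NumberField L] (h : IsTwist a K L) : Class L := by
  have hm := Pool.Agent.Run7.h289.XK.cl_tw (mult ha) hn
  have hQ := twist_QF hn hd L h
  have hL := (_root_.Run7.h555.XK.t_DSC L _ hQ hm).1
  have hm2 : tw a n % 60 = 23 ∨ tw a n % 60 = 47 := hm.2
  refine ⟨hQ.two, ?_, ?_⟩
  · rw [hL]
    omega
  · rw [hL]
    omega

theorem ex_twist {a : ℕ} (ha : Mult a) (hn : Cl n) (hd : discr K = -(n : ℤ)) :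
    ∃ (L : Type) (_ : Field L) (_ : NumberField L), IsTwist a K L := by
  have hm := Pool.Agent.Run7.h289.XK.cl_tw (mult ha) hn
  have hmul := Pool.Agent.Run7.h289.D18.tw_mul a n
  obtain ⟨L, i1, i2, -, hQ, hdL⟩ := hm.exK
  refine ⟨L, i1, i2, hQ.two, ?_⟩
  obtain ⟨r, hr⟩ := hQ.sq
  refine ⟨(Nat.gcd a n : L) * r, ?_⟩
  have hmulL : ((tw a n : ℕ) : L) * ((Nat.gcd a n : ℕ) : L) ^ 2 =
      (a : L) * (n : L) := by exact_mod_cast congrArg (Nat.cast (R := L)) hmul
  rw [mul_pow, hr, hd]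
  push_cast
  linear_combination -hmulL

theorem twist_iff {a : ℕ} (ha : Mult a) (r : ℕ) (hn : Cl n) (hd : discr K = -(n : ℤ)) :
    FourRankTwist a r K ↔ Nf (tw a n) = 2 ^ (r + 1) := by
  have hm := Pool.Agent.Run7.h289.XK.cl_tw (mult ha) hn
  constructor
  · rintro ⟨L, i1, i2, hL, h2⟩
    exact (fr_iff (twist_QF hn hd L hL) hm r).1 h2
  · intro hq
    obtain ⟨L, i1, i2, hL⟩ := ex_twist ha hn hd
    exact ⟨L, i1, i2, hL, (fr_iff (twist_QF hn hd L hL) hm r).2 hq⟩

/-- the joint law for the numbers -/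
theorem lawN {M : ℕ} {a : Fin M → ℕ} (ha : Function.Injective a) (hM : ∀ i, Mult (a i))
    (r : Fin M → ℕ) :
    Tendsto (fun X : ℕ => (Nat.card {n : ℕ // n ≤ X ∧ Cl n ∧
        ∀ i, Nf (tw (a i) n) = 2 ^ (r i + 1)} : ℝ) /
      (Nat.card {n : ℕ // n ≤ X ∧ Cl n} : ℝ)) atTop (𝓝 (∏ i, g (r i))) := by
  have h := Pool.Agent.Run7.h289.D18.prp_J r a ha (fun i => (hM i).1)
    (fun i => by have := (hM i).2.1; omega) 120
    (by norm_num) (by norm_num) (fun n => n % 60 = 23 ∨ n % 60 = 47) (fun n => by omega)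
    (fun n hn => by omega) 23 (Or.inl rfl) (by norm_num)
  unfold Prp nm at h
  have e0 : ∏ i, _root_.Run7.h843.L.gk (r i) = ∏ i, g (r i) :=
    Finset.prod_congr rfl fun i _ => g_eq (r i)
  rw [e0] at h
  refine h.congr fun X => ?_
  have e : Nat.card {m : ℕ // m ≤ X ∧ (Squarefree m ∧ (m % 60 = 23 ∨ m % 60 = 47)) ∧ True} =
      Nat.card {m : ℕ // m ≤ X ∧ Cl m} :=
    Nat.card_congr (Equiv.subtypeEquivRight fun m => by rw [and_true]; rfl)
  rw [e]
  rfl

end proof

/-- **The Tate-Shafarevich group of `X_0(15)` over the imaginary quadratic fields with discriminant `13` or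
`37` modulo `60`.** -/
theorem result :
    (∀ (K : Type) [Field K] [NumberField K], Class K →
      (∃ F : ℂ → ℂ, IsLFun K F) ∧ Module.Finite ℤ (MP (base E K)) ∧
      Nat.card {x : Sha (base E K) // 2 • x = 0} * 2 ^ Module.finrank ℤ (MP (base E K)) =
        4 ^ (ram K - 1) ∧
      (∃ r : ℕ, FourRank r K) ∧
      (∀ r : ℕ, FourRank r K → Module.finrank ℤ (MP (base E K)) ≤ 2 * r ∧
        4 ^ (ram K - 1) ≤ 4 ^ r * Nat.card {x : Sha (base E K) // 2 • x = 0}) ∧
      (FourRank 0 K → Known K)) ∧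
    (∀ (K : Type) [Field K] [NumberField K], Class K → ∀ a : ℕ, Mult a →
      (∃ (L : Type) (_ : Field L) (_ : NumberField L), IsTwist a K L) ∧
      ∀ (L : Type) [Field L] [NumberField L], IsTwist a K L → Class L) ∧
    (∀ (M : ℕ) (a : Fin M → ℕ), Function.Injective a → (∀ i, Mult (a i)) →
      ∀ (r : Fin M → ℕ) (m : ℕ),
        Tendsto (fun X : ℕ =>
          (num (fun K _ _ => (∀ i, FourRankTwist (a i) (r i) K) ∧ m ≤ ram K) X : ℝ) /
            (num (fun _ _ _ => True) X : ℝ)) atTop (𝓝 (∏ i, g (r i)))) ∧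
    HasSum g 1 ∧ g 0 = eta ∧ 0.2887 < eta ∧ eta < 0.2889 ∧
    Tendsto (fun X : ℕ => (num (fun _ _ _ => True) X : ℝ) / X) atTop
      (𝓝 (5 / (16 * Real.pi ^ 2))) := by
  classical
  have hT : ∀ X : ℕ, num (fun _ _ _ => True) X =
      Nat.card {n : ℕ // n ≤ X ∧ _root_.Run7.h555.XK.Cl n} := by
    intro X
    rw [num_eq (Q := fun _ _ _ => True) (Q' := fun _ => True) (fun _ _ _ _ _ _ _ => Iff.rfl) X]
    refine Nat.card_congr (Equiv.subtypeEquivRight fun n => ?_)
    rw [and_true]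
  have hT' : ∀ X : ℕ, num (fun _ _ _ => True) X = _root_.Run7.h238.G15.Bb X := by
    intro X
    rw [hT X]
    unfold _root_.Run7.h238.G15.Bb
    refine Nat.subtype_card _ fun n => ?_
    rw [Finset.mem_filter, Finset.mem_Icc]
    constructor
    · rintro ⟨⟨-, h2⟩, h3, h4⟩
      exact ⟨h2, h3, h4⟩
    · rintro ⟨h2, hc⟩
      exact ⟨⟨Nat.one_le_iff_ne_zero.2 hc.1.ne_zero, h2⟩, hc.1, hc.2⟩
  refine ⟨?_, ?_, ?_, ?_, ?_, Pool.Agent.N916.GB.eta_bounds.1, Pool.Agent.N916.GB.eta_bounds.2, ?_⟩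
  · intro K _ _ hK
    obtain ⟨n, hQ, hn, hd⟩ := _root_.Run7.h555.XK.ClK.ex (K := K) hK
    obtain ⟨F, hF, hs, -⟩ := (pk hQ hn).val
    obtain ⟨s1, s2⟩ := sel hQ hn
    obtain ⟨r0, hr0, hle⟩ := rank_le hQ hn
    have s3 : Nat.card {x : Sha (base E K) // 2 • x = 0} *
        2 ^ Module.finrank ℤ (MP (base E K)) = 4 ^ (ram K - 1) := by
      rw [ram_eq hd]
      exact s2
    refine ⟨⟨F, hF, fun s h => hs s h⟩, s1, s3, ⟨r0, hr0⟩, fun r hr => ?_, fun h0 =>
      known hQ hn hd (qc_of hQ hn h0)⟩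
    have hrr : r = r0 := by
      have h1 : 2 ^ r = 2 ^ r0 := by
        unfold FourRank at hr hr0
        rw [← hr, ← hr0]
      exact Nat.pow_right_injective le_rfl h1
    subst hrr
    refine ⟨hle, ?_⟩
    rw [← s3, mul_comm]
    refine Nat.mul_le_mul_right _ ?_
    calc 2 ^ Module.finrank ℤ (MP (base E K)) ≤ 2 ^ (2 * r) :=
          Nat.pow_le_pow_right (by norm_num) hle
      _ = 4 ^ r := by rw [pow_mul]; norm_num
  · intro K _ _ hK a ha
    obtain ⟨n, hQ, hn, hd⟩ := _root_.Run7.h555.XK.ClK.ex (K := K) hK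
    exact ⟨ex_twist ha hn hd, fun L _ _ hL => class_twist ha hn hd L hL⟩
  · intro M a ha hM r m
    refine (Pool.Agent.Run7.h289.XK.many_of (lawN ha hM r) m).congr fun X => ?_
    rw [hT X, num_eq (Q := fun K _ _ => (∀ i, FourRankTwist (a i) (r i) K) ∧ m ≤ ram K)
      (Q' := fun n => (∀ i, Pool.Agent.Run7.h289.D18.Nf (Pool.Agent.Run7.h238.J.tw (a i) n) =
        2 ^ (r i + 1)) ∧ m ≤ n.primeFactors.card)
      (fun K _ _ n hQ hn hd => by
        rw [ram_eq hd]
        exact and_congr_left fun _ => forall_congr' fun i => twist_iff (hM i) (r i) hn hd) X]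
  · have h := _root_.Run7.h843.L.gk_hasSum
    rwa [show _root_.Run7.h843.L.gk = g from funext g_eq] at h
  · unfold g
    simp
  · have h := _root_.Run7.h238.G15.lim_Bb
    have e : (6 / Real.pi ^ 2 * (5 / 96) : ℝ) = 5 / (16 * Real.pi ^ 2) := by
      have : Real.pi ≠ 0 := Real.pi_ne_zero
      field_simp
      norm_num
    rw [e] at h
    refine h.congr fun X => ?_
    rw [hT' X]

end Pool.Agent.Results.MP_78d38b_nt.ShaImaginaryQuadratic
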